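import Pool.Agent.TH547.Arc.Mark
set_option autoImplicit false

/-! Auxiliary markers. -/
namespace Pool.Agent.TH547.Arc

open Finset Equiv

/-- test for a symbol not being an auxiliary marker `mr n`, `N0 ≤ n` -/
def nax (N0 : ℕ) : Sy → Bool
  | mr n => decide (n < N0)
  | en _ _ => true

/-- remove all auxiliary markers -/
def clrM (N0 : ℕ) (X : PW) : PW where
  x := X.x.filter (nax N0)
  nd := X.nd.filter _
  pair := by
    intro b e hb
    rw [List.mem_filter] at hb
    have h := (X.pair b e hb.1).filter (nax N0)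
    rwa [List.filter_cons_of_pos (by simp [nax]), List.filter_cons_of_pos (by simp [nax]),
      List.filter_nil] at h

/-- the frozen word `μ` with the markers of `J` inserted before `p`, in decreasing order -/
noncomputable def muJ (p : Sy) (μ : PW) (J : Finset ℕ) : PW := muL p μ (J.sort (· ≥ ·))

/-- the symbols `mr j`, `j ∈ J` -/
def mrs (J : Finset ℕ) : Finset Sy := J.image Sy.mr

/-- tight cells -/
def PT (θ : Perm Sy) (μ : PW) (P Dd : Finset Sy) (c : ℕ) (X : PW) : Prop :=
  OvP μ P X ∧ nf θ Dd X.x + X.ord.length = c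

/-- tight cells with auxiliary markers `J` in closed boundary cycles -/
def RJ (θ : Perm Sy) (μ : PW) (p : Sy) (Dd : Finset Sy) (c : ℕ) (J : Finset ℕ) (X : PW) : Prop :=
  PA θ (muJ p μ J) (insert p (mrs J)) Dd c p (mrs J) X

/-- tight cells with one auxiliary marker in a closed boundary cycle -/
def R0 (θ : Perm Sy) (μ : PW) (p : Sy) (Dd : Finset Sy) (c N0 : ℕ) (X : PW) : Prop :=
  ∃ j, N0 ≤ j ∧ RJ θ μ p Dd c {j} X

end Pool.Agent.TH547.Arc
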