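import Pool.Agent.TH547.Arc.Surf
import Pool.Agent.TH295.J986
import Pool.Agent.TH295.J1112
import Pool.Agent.TH515.J1113
import Pool.Agent.TH745.J1114
import Pool.Agent.TH554.J1158
set_option autoImplicit false

/-! The columns of the spectral sequence of the arc complex. -/
namespace Pool.Agent.TH547.Arc
open Finset Equiv

theorem lasts_lt : ∀ (δ : List ℕ) (k : ℕ), (∀ d ∈ δ, 1 ≤ d) → ∀ j ∈ lasts k δ,
    k ≤ j ∧ j < k + δ.sum
  | [], k, _, j, hj => by simp [lasts] at hj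
  | d :: δ, k, h, j, hj => by
    have hd : 1 ≤ d := h d (by simp)
    rw [lasts, List.mem_cons] at hj
    rw [List.sum_cons]
    rcases hj with rfl | hj
    · omega
    · have := lasts_lt δ (k + d) (fun e he => h e (by simp [he])) j hj
      omega

theorem mem_muF {δ : List ℕ} {s : Sy} : s ∈ (muF δ).x ↔ ∃ j, j < δ.sum ∧ s = mr j := by
  unfold muF
  simp only [List.mem_map, List.mem_range]
  constructor
  · rintro ⟨j, h, rfl⟩; exact ⟨j, h, rfl⟩
  · rintro ⟨j, h, rfl⟩; exact ⟨j, h, rfl⟩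

theorem thF_flip (δ : List ℕ) (a : ℕ) (e : Bool) : thF δ (en a e) = en a (!e) := by
  unfold thF
  rw [Perm.mul_apply]
  have h : flipS (en a e) = en a (!e) := rfl
  rw [h]
  apply List.formPerm_apply_of_notMem
  simp

theorem thF_mr (δ : List ℕ) (n : ℕ) :
    thF δ (mr n) = ((lasts 0 δ).map mr).reverse.formPerm (mr n) := rfl

theorem thF_fix (δ : List ℕ) (hδ : ∀ d ∈ δ, 1 ≤ d) (n : ℕ) (hn : mr n ∉ (muF δ).x) :
    thF δ (mr n) = mr n := by
  rw [thF_mr]
  apply List.formPerm_apply_of_notMem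
  rw [List.mem_reverse, List.mem_map]
  rintro ⟨j, hj, h⟩
  have := lasts_lt δ 0 hδ j hj
  apply hn
  rw [mem_muF]
  exact ⟨j, by omega, h.symm⟩

theorem thF_pres (δ : List ℕ) (hδ : ∀ d ∈ δ, 1 ≤ d) : ∀ s ∈ (muF δ).x, thF δ s ∈ (muF δ).x := by
  intro s hs
  obtain ⟨j, hj, rfl⟩ := mem_muF.1 hs
  rw [thF_mr]
  by_cases h : mr j ∈ ((lasts 0 δ).map mr).reverse
  · have h2 := List.formPerm_apply_mem_of_mem h
    rw [List.mem_reverse, List.mem_map] at h2
    obtain ⟨k, hk, hk'⟩ := h2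
    have := lasts_lt δ 0 hδ k hk
    rw [mem_muF]
    exact ⟨k, by omega, hk'.symm⟩
  · rw [List.formPerm_apply_of_notMem h]
    exact hs

theorem nm_surf (g : ℕ) (δ : List ℕ) (s : ℕ) : RWS.nm (surf g δ s) = ∅ := by
  rw [Finset.eq_empty_iff_forall_notMem]
  intro a ha
  have h1 : a ∈ (muF δ).ord := (Sys.mem_nm (S := RWS)).1 ha
  rw [PW.mem_ord] at h1
  obtain ⟨j, _, h⟩ := mem_muF.1 h1
  simp at h

theorem good_res {θ : Perm Sy} (hf : ∀ a, θ (en a false) = en a true ∧ θ (en a true) = en a false)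
    {X : RW} (hX : RW.Good θ X) (N : Finset ℕ) : RW.Good θ (RWS.res N X) := by
  refine Pool.Agent.TH286.J835.Sys.res_ind (S := RWS) (p := fun Y => RW.Good θ Y) hX ?_
  intro Y hY a ha
  have ha' : a ∈ Y.w.ord := (Sys.mem_nm (S := RWS)).1 (Finset.mem_sdiff.1 ha).1
  exact Pool.Agent.TH745.J984.RW.Good_dl hY (hf a) ha'

theorem surf_env {g : ℕ} {δ : List ℕ} {s : ℕ} (hδ : ∀ d ∈ δ, 1 ≤ d) {X : RW}
    (hX : IsFam g δ s X) : EnvR (thF δ) (surf g δ s) where
  flip a _ e := thF_flip δ a e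
  pres := thF_pres δ hδ
  fixm n hn := thF_fix δ hδ n hn
  good := by
    rw [← hX.2.1]
    exact good_res (fun a => ⟨thF_flip δ a false, thF_flip δ a true⟩) hX.1 ∅


theorem d2_single (X : RW) (n : ℤ) :
    d2 (Finsupp.single (RWS.cl ∅ X) n) = n • d20 X := by
  unfold d2
  rw [Finsupp.lsum_single]
  rfl

/-- a cell in the column `u` -/
theorem PM_iff {g : ℕ} {δ : List ℕ} {s : ℕ} {M : ℤ} {X : RW} :
    PM (thF δ) (surf g δ s) M X ↔ IsFam g δ s X ∧ (X.w.ord.length : ℤ) + X.rk = M := by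
  unfold PM IsFam
  tauto

theorem deg_eq (X : RW) : Sys.deg (S := RWS) ∅ X = X.w.ord.length := by
  unfold Sys.deg
  rw [Finset.sdiff_empty]
  unfold Sys.nm
  rw [List.toFinset_card_of_nodup (RWS.nodup X)]
  rfl

theorem d20_eq {g : ℕ} {δ : List ℕ} {s : ℕ} {M : ℤ} (hE : EnvR (thF δ) (surf g δ s)) {X : RW}
    (hX : PM (thF δ) (surf g δ s) M X) (hl : 2 ≤ X.w.ord.length) :
    d20 X = Sys.D0 (S := RWS) ∅ (PM (thF δ) (surf g δ s) M) X := by
  classical
  unfold d20 Sys.D0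
  rw [Finset.sdiff_empty]
  have : (RWS.nm X).filter (fun a => (X.dl a).w.ord ≠ [] ∧ (X.dl a).rk = X.rk + 1) =
      (RWS.nm X).filter (fun a => PM (thF δ) (surf g δ s) M (RWS.dl X a)) := by
    refine Finset.filter_congr fun a ha => ?_
    have ha' : a ∈ X.w.ord := (Sys.mem_nm (S := RWS)).1 ha
    have h1 := Pool.Agent.TH745.J1114.PM_dl hE (nm_surf g δ s) M hX ha'
    have h2 : (X.dl a).w.ord ≠ [] := by
      have h3 : (X.dl a).w.ord = X.w.ord.erase a := PW.ord_dl X.w a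
      rw [h3]
      intro h4
      have h5 := List.length_erase_of_mem ha'
      rw [h4, List.length_nil] at h5
      omega
    constructor
    · intro h; exact h1.2 h.2
    · intro h; exact ⟨h2, h1.1 h⟩
  rw [this]
  rfl

theorem d2_eq {g : ℕ} {δ : List ℕ} {s : ℕ} {M : ℤ} (hE : EnvR (thF δ) (surf g δ s)) {i : ℕ}
    (hi : 2 ≤ i) {z : RWS.Q ∅ →₀ ℤ}
    (hz : z ∈ Sys.Ch (S := RWS) ∅ (PM (thF δ) (surf g δ s) M) i) :
    d2 z = Sys.D (S := RWS) ∅ (PM (thF δ) (surf g δ s) M) z := by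
  have hI := Pool.Agent.TH745.J1114.PM_inv hE (nm_surf g δ s) M
  refine Sys.Ch_induction (S := RWS) (p := fun z => d2 z = Sys.D (S := RWS) ∅
    (PM (thF δ) (surf g δ s) M) z) ?_ ?_ ?_ z hz
  · simp
  · intro x y hx hy; rw [map_add, map_add, hx, hy]
  · intro X n hX hd
    have hd' : Sys.deg (S := RWS) ∅ X = X.w.ord.length := deg_eq X
    have h2 : X.w.ord.length = i := hd'.symm.trans hd
    have hl : 2 ≤ X.w.ord.length := h2 ▸ hi
    exact (d2_single X n).trans ((congrArg (fun y => n • y) (d20_eq hE hX hl)).trans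
      (Sys.D_single (S := RWS) hI X n).symm)

/-- the groups `E^0` as chain groups of the columns -/
theorem E0_eq {g : ℕ} {δ : List ℕ} {s : ℕ} {u v : ℤ} {i : ℕ} (hi : (i : ℤ) = u + v + 1)
    (hi1 : 1 ≤ i) : E0 g δ s u v = Sys.Ch (S := RWS) ∅ (PM (thF δ) (surf g δ s) (u + 1)) i := by
  unfold E0 Sys.Ch
  congr 1
  ext q
  simp only [Set.mem_ofPred_eq]
  constructor
  · rintro ⟨X, h1, h2, h3, h4⟩
    refine ⟨X, h1, PM_iff.2 ⟨h2.1, by omega⟩, ?_⟩
    have := deg_eq X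
    omega
  · rintro ⟨X, h1, h2, h3'⟩
    have h3 : X.w.ord.length = i := (deg_eq X).symm.trans h3'
    have h4 := PM_iff.1 h2
    refine ⟨X, h1, ⟨h4.1, ?_⟩, ?_, ?_⟩
    · intro h; rw [h] at h3; simp at h3; omega
    · have := h4.2; omega
    · omega





theorem dl_length {X : RW} {a : ℕ} (ha : a ∈ X.w.ord) :
    (X.dl a).w.ord.length + 1 = X.w.ord.length := by
  have h1 : (X.dl a).w.ord = X.w.ord.erase a := PW.ord_dl X.w a
  rw [h1, List.length_erase_of_mem ha]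
  have : 0 < X.w.ord.length := List.length_pos_of_mem ha
  omega

/-- a face of an arc family is an arc family, and the rank of `H_1` stays or grows by one -/
theorem face {g : ℕ} {δ : List ℕ} {s : ℕ} {X : RW} (hX : IsFam g δ s X) {a : ℕ}
    (ha : a ∈ X.w.ord) :
    IsFam g δ s (X.dl a) ∧ ((X.dl a).rk = X.rk ∨ (X.dl a).rk = X.rk + 1) := by
  have hf : thF δ (en a false) = en a true ∧ thF δ (en a true) = en a false :=
    ⟨thF_flip δ a false, thF_flip δ a true⟩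
  refine ⟨⟨Pool.Agent.TH745.J984.RW.Good_dl hX.1 hf ha, ?_,
    Pool.Agent.TH745.J984.RW.ND_dl hX.1 hf ha hX.2.2⟩, ?_⟩
  · have := Pool.Agent.TH286.J835.Sys.res_dl' (S := RWS) (N := ∅) X (a := a) (by simp)
    exact this.trans hX.2.1
  · by_cases h : X.Loop a
    · exact Or.inr (Pool.Agent.TH745.J984.RW.rk_dl_loop hX.1 hf ha h)
    · exact Or.inl (Pool.Agent.TH745.J984.RW.rk_dl_nonloop hX.1 hf ha h)

theorem mem_E0_of {g : ℕ} {δ : List ℕ} {s : ℕ} {u v : ℤ} {X : RW} (hX : IsCell g δ s X)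
    (h1 : v = -X.rk) (h2 : (X.w.ord.length : ℤ) - 1 = u + v) (n : ℤ) :
    Finsupp.single (RWS.cl ∅ X) n ∈ E0 g δ s u v := by
  unfold E0
  exact Finsupp.single_mem_supported ℤ n ⟨X, rfl, hX, h1, h2⟩

theorem E0_induction {g : ℕ} {δ : List ℕ} {s : ℕ} {u v : ℤ} {p : (RWS.Q ∅ →₀ ℤ) → Prop}
    (h0 : p 0) (hadd : ∀ x y, p x → p y → p (x + y))
    (hs : ∀ (X : RW) (n : ℤ), IsCell g δ s X → v = -X.rk → (X.w.ord.length : ℤ) - 1 = u + v →
      p (Finsupp.single (RWS.cl ∅ X) n)) {z : RWS.Q ∅ →₀ ℤ} (hz : z ∈ E0 g δ s u v) : p z := by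
  unfold E0 at hz
  rw [Finsupp.mem_supported] at hz
  induction z using Finsupp.induction with
  | zero => exact h0
  | single_add q n z hq hn ih =>
    have hsup := Finsupp.support_single_add hq hn
    rw [hsup] at hz
    refine hadd _ _ ?_ (ih ?_)
    · obtain ⟨X, rfl, h1, h2, h3⟩ := hz (Finset.mem_coe.2 (Finset.mem_cons_self q z.support))
      exact hs X n h1 h2 h3
    · intro q' hq'
      exact hz (Finset.mem_coe.2 (Finset.mem_cons_of_mem (Finset.mem_coe.1 hq')))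

/-- `∂²` maps `E^0_{u,v}` to `E^0_{u,v-1}` -/
theorem d2_mem {g : ℕ} {δ : List ℕ} {s : ℕ} {u v : ℤ} {z : RWS.Q ∅ →₀ ℤ}
    (hz : z ∈ E0 g δ s u v) : d2 z ∈ E0 g δ s u (v - 1) := by
  refine E0_induction (p := fun z => d2 z ∈ E0 g δ s u (v - 1)) ?_ ?_ ?_ hz
  · simp
  · intro x y hx hy; rw [map_add]; exact Submodule.add_mem _ hx hy
  · intro X n hX h1 h2
    rw [d2_single]
    refine Submodule.smul_mem _ _ ?_
    unfold d20
    refine Submodule.sum_mem _ fun a ha => ?_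
    rw [Finset.mem_filter] at ha
    have ha' : a ∈ X.w.ord := (Sys.mem_nm (S := RWS)).1 ha.1
    have h3 := dl_length ha'
    refine mem_E0_of ⟨(face hX.1 ha').1, ha.2.1⟩ ?_ ?_ _
    · rw [ha.2.2]; omega
    · omega

theorem d2_one {X : RW} (hX : X.w.ord.length ≤ 1) : d20 X = 0 := by
  unfold d20
  refine Finset.sum_eq_zero fun a ha => ?_
  rw [Finset.mem_filter] at ha
  have ha' : a ∈ X.w.ord := (Sys.mem_nm (S := RWS)).1 ha.1
  have h3 := dl_length ha'
  exact absurd (List.length_eq_zero_iff.1 (by omega)) ha.2.1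

/-- `∂²` is a differential -/
theorem d2_sq {g : ℕ} {δ : List ℕ} {s : ℕ} (hδ : ∀ d ∈ δ, 1 ≤ d) {u v : ℤ} {z : RWS.Q ∅ →₀ ℤ}
    (hz : z ∈ E0 g δ s u v) : d2 (d2 z) = 0 := by
  refine E0_induction (p := fun z => d2 (d2 z) = 0) ?_ ?_ ?_ hz
  · simp
  · intro x y hx hy; rw [map_add, map_add, hx, hy, add_zero]
  · intro X n hX h1 h2
    have hE : EnvR (thF δ) (surf g δ s) := surf_env hδ hX.1
    have hzX := mem_E0_of hX h1 h2 n
    by_cases hl : X.w.ord.length ≤ 1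
    · rw [d2_single, d2_one hl, smul_zero, map_zero]
    · by_cases hl2 : X.w.ord.length = 2
      · have h3 := d2_mem hzX
        refine E0_induction (p := fun z => d2 z = 0) ?_ ?_ ?_ h3
        · simp
        · intro x y hx hy; rw [map_add, hx, hy, add_zero]
        · intro Y m _ _ hY2
          rw [d2_single, d2_one (by omega), smul_zero]
      · rw [E0_eq (i := X.w.ord.length) (by omega) (by omega)] at hzX
        have hI := Pool.Agent.TH745.J1114.PM_inv hE (nm_surf g δ s) (u + 1)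
        have hC := Pool.Agent.TH745.J1114.PM_cvx hE (nm_surf g δ s) (u + 1)
        obtain ⟨k, hk⟩ : ∃ k, X.w.ord.length = k + 1 := ⟨X.w.ord.length - 1, by omega⟩
        rw [hk] at hzX
        rw [d2_eq hE (by omega) hzX, d2_eq hE (i := k) (by omega) (Sys.D_mem (S := RWS) hI hzX)]
        exact Sys.D_D (S := RWS) hI hC hzX



end Pool.Agent.TH547.Arc
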