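import Pool.Agent.TH547.Arc.NH
set_option autoImplicit false

/-! Geometry of paired words: restriction, insertion of arcs, environments. -/
namespace Pool.Agent.TH547.Arc

open Finset Equiv

/-- test for keeping a symbol when only the arcs in `N` are kept -/
def kp (N : Finset ℕ) : Sy → Bool
  | mr _ => true
  | en a _ => decide (a ∈ N)

@[simp] theorem kp_mr (N : Finset ℕ) (n : ℕ) : kp N (mr n) = true := rfl
@[simp] theorem kp_en (N : Finset ℕ) (a : ℕ) (e : Bool) : kp N (en a e) = decide (a ∈ N) := rfl

/-- restriction of a paired word to the arcs in `N` -/
def rsN (N : Finset ℕ) (X : PW) : PW where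
  x := X.x.filter (kp N)
  nd := X.nd.filter _
  pair := by
    intro b e hb
    rw [List.mem_filter] at hb
    have hbN : b ∈ N := by simpa using hb.2
    have h := (X.pair b e hb.1).filter (kp N)
    rwa [List.filter_cons_of_pos (by simpa using hbN), List.filter_cons_of_pos (by simpa using hbN),
      List.filter_nil] at h

/-- if `q` comes before `c` exchange them -/
def ordP (x : List Sy) (c q : Sy) : Sy × Sy := if x.idxOf c ≤ x.idxOf q then (c, q) else (q, c)

theorem insB_mem (t s : Sy) (x : List Sy) (u : Sy) : u ∈ insB t s x ↔ u ∈ x ∨ (u = s ∧ t ∈ x) := by
  unfold insB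
  rw [List.mem_flatMap]
  constructor
  · rintro ⟨v, hv, hu⟩
    split_ifs at hu with h
    · subst h
      rcases List.mem_cons.1 hu with rfl | hu
      · exact Or.inr ⟨rfl, hv⟩
      · rw [List.mem_singleton] at hu; subst hu; exact Or.inl hv
    · rw [List.mem_singleton] at hu; subst hu; exact Or.inl hv
  · rintro (hu | ⟨rfl, ht⟩)
    · refine ⟨u, hu, ?_⟩
      split_ifs <;> simp
    · exact ⟨t, ht, by simp⟩

theorem insB_append (t s : Sy) (x y : List Sy) : insB t s (x ++ y) = insB t s x ++ insB t s y := by
  unfold insB; rw [List.flatMap_append]

theorem insB_cons_self (t s : Sy) (x : List Sy) : insB t s (t :: x) = s :: t :: insB t s x := by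
  unfold insB; simp

theorem insB_cons_ne {t u : Sy} (s : Sy) (x : List Sy) (h : u ≠ t) :
    insB t s (u :: x) = u :: insB t s x := by
  unfold insB; simp [h]

theorem insB_of_not_mem {t : Sy} (s : Sy) {x : List Sy} (h : t ∉ x) : insB t s x = x := by
  induction x with
  | nil => rfl
  | cons u x ih =>
    have hu : u ≠ t := fun e => h (by simp [e])
    rw [insB_cons_ne s x hu, ih (fun e => h (List.mem_cons_of_mem _ e))]

theorem insB_split {t : Sy} (s : Sy) {l1 l2 : List Sy} (h1 : t ∉ l1) (h2 : t ∉ l2) :
    insB t s (l1 ++ t :: l2) = l1 ++ s :: t :: l2 := by
  rw [insB_append, insB_of_not_mem s h1, insB_cons_self, insB_of_not_mem s h2]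

theorem insB_sub (t s : Sy) (x : List Sy) : x.Sublist (insB t s x) := by
  induction x with
  | nil => exact List.Sublist.refl _
  | cons u x ih =>
    by_cases h : u = t
    · subst h
      rw [insB_cons_self]
      exact (ih.cons_cons u).cons s
    · rw [insB_cons_ne s x h]
      exact ih.cons_cons u

theorem insB_nd (t s : Sy) {x : List Sy} (hx : x.Nodup) (hs : s ∉ x) : (insB t s x).Nodup := by
  induction x with
  | nil => simp [insB]
  | cons u x ih =>
    rw [List.nodup_cons] at hx
    have hs' : s ∉ x := fun e => hs (List.mem_cons_of_mem _ e)
    have hus : u ≠ s := fun e => hs (by simp [e])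
    by_cases h : u = t
    · subst h
      rw [insB_cons_self, insB_of_not_mem s hx.1]
      refine List.nodup_cons.2 ⟨?_, List.nodup_cons.2 ⟨hx.1, hx.2⟩⟩
      intro e
      exact hs e
    · rw [insB_cons_ne s x h, List.nodup_cons]
      refine ⟨?_, ih hx.2 hs'⟩
      rw [insB_mem]
      rintro (e | ⟨e, _⟩)
      · exact hx.1 e
      · exact hus e

/-- `[s, t]` is a sublist after insertion of `s` before `t` -/
theorem insB_pair (t s : Sy) {x : List Sy} (ht : t ∈ x) : [s, t].Sublist (insB t s x) := by
  induction x with
  | nil => simp at ht
  | cons u x ih =>
    by_cases h : u = t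
    · subst h
      rw [insB_cons_self]
      exact ((List.nil_sublist _).cons_cons u).cons_cons s
    · rw [insB_cons_ne s x h]
      have : t ∈ x := by
        rcases List.mem_cons.1 ht with e | e
        · exact absurd e.symm h
        · exact e
      exact (ih this).cons u

theorem insB_filter_pos {t s : Sy} (x : List Sy) (f : Sy → Bool) (ht : f t = true) (hs : f s = true) :
    (insB t s x).filter f = insB t s (x.filter f) := by
  induction x with
  | nil => rfl
  | cons u x ih =>
    by_cases h : u = t
    · subst h
      rw [insB_cons_self, List.filter_cons_of_pos hs, List.filter_cons_of_pos ht,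
        List.filter_cons_of_pos ht, insB_cons_self, ih]
    · rw [insB_cons_ne s x h]
      by_cases hu : f u = true
      · rw [List.filter_cons_of_pos hu, List.filter_cons_of_pos hu, insB_cons_ne s _ h, ih]
      · rw [List.filter_cons_of_neg hu, List.filter_cons_of_neg hu, ih]

theorem insB_filter_neg {t s : Sy} (x : List Sy) (f : Sy → Bool) (hs : ¬ f s = true) :
    (insB t s x).filter f = x.filter f := by
  induction x with
  | nil => rfl
  | cons u x ih =>
    by_cases h : u = t
    · subst h
      rw [insB_cons_self, List.filter_cons_of_neg hs, List.filter_cons, List.filter_cons, ih]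
    · rw [insB_cons_ne s x h, List.filter_cons, List.filter_cons, ih]

theorem insB_map {t s : Sy} (x : List Sy) {f : Sy → Sy} (hf : Function.Injective f) :
    (insB t s x).map f = insB (f t) (f s) (x.map f) := by
  induction x with
  | nil => rfl
  | cons u x ih =>
    by_cases h : u = t
    · subst h
      rw [insB_cons_self, List.map_cons, List.map_cons, List.map_cons, insB_cons_self, ih]
    · rw [insB_cons_ne s x h, List.map_cons, List.map_cons,
        insB_cons_ne _ _ (fun e => h (hf e)), ih]

/-- insertion of the arc `b` into the corners before `c` and before `q` -/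
noncomputable def insP (c q : Sy) (b : ℕ) (X : PW) : PW :=
  open Classical in
  if h : (c ∈ X.x ∧ q ∈ X.x) ∧ (c = q ∨ [c, q].Sublist X.x) ∧ b ∉ X.ord then
    { x := ins2 c q b X.x
      nd := by
        have h0 : en b false ∉ X.x := fun e => h.2.2 ((PW.mem_ord' false).2 e)
        have h1 : en b true ∉ X.x := fun e => h.2.2 ((PW.mem_ord' true).2 e)
        refine insB_nd _ _ (insB_nd _ _ X.nd h0) ?_
        rw [insB_mem]
        rintro (e | ⟨e, _⟩)
        · exact h1 e
        · exact absurd e (by simp)
      pair := by
        intro a e ha
        have h0 : en b false ∉ X.x := fun e => h.2.2 ((PW.mem_ord' false).2 e)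
        have h1 : en b true ∉ X.x := fun e => h.2.2 ((PW.mem_ord' true).2 e)
        by_cases hab : a = b
        · subst hab
          obtain ⟨⟨hc, hq⟩, hcq, _⟩ := h
          unfold ins2
          have hqi : q ∈ insB c (en a false) X.x := (insB_mem _ _ _ _).2 (Or.inl hq)
          rcases hcq with rfl | hcq
          · -- b0 is before b1
            obtain ⟨l1, l2, hl⟩ := List.append_of_mem hc
            have hnd := X.nd
            rw [hl] at hnd
            have hn1 : c ∉ l1 := fun e => by
              have := (List.nodup_append.1 hnd).2.2 c e c (by simp)
              exact this rfl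
            have hn2 : c ∉ l2 := (List.nodup_cons.1 (List.nodup_append.1 hnd).2.1).1
            rw [hl, insB_split _ hn1 hn2]
            have e2 : l1 ++ en a false :: c :: l2 = (l1 ++ [en a false]) ++ c :: l2 := by simp
            have hn3 : c ∉ l1 ++ [en a false] := by
              rw [List.mem_append, List.mem_singleton]
              rintro (e | e)
              · exact hn1 e
              · exact h0 (e ▸ hc)
            rw [e2, insB_split _ hn3 hn2]
            refine List.Sublist.trans ?_ (List.Sublist.refl _)
            rw [List.append_assoc]
            refine List.Sublist.trans ?_ (List.sublist_append_right l1 _)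
            simp only [List.singleton_append]
            exact ((List.nil_sublist _).cons_cons _).cons_cons _
          · obtain ⟨l1, l2, hl⟩ := List.append_of_mem hc
            have hnd := X.nd
            rw [hl] at hnd
            have hn1 : c ∉ l1 := fun e => by
              have := (List.nodup_append.1 hnd).2.2 c e c (by simp)
              exact this rfl
            have hn2 : c ∉ l2 := (List.nodup_cons.1 (List.nodup_append.1 hnd).2.1).1
            have hq2 : q ∈ l2 := by
              rw [hl] at hcq
              have h3 : [c, q].Sublist (c :: l2) := by
                clear hl hnd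
                induction l1 with
                | nil => exact hcq
                | cons u l1 ih =>
                  have hu : u ≠ c := fun e => hn1 (by simp [e])
                  refine ih ?_ (fun e => hn1 (List.mem_cons_of_mem _ e))
                  rw [List.cons_append] at hcq
                  rcases List.sublist_cons_iff.1 hcq with h | ⟨r, hr, h⟩
                  · exact h
                  · simp only [List.cons.injEq] at hr
                    exact absurd hr.1.symm hu
              have h4 := List.cons_sublist_cons.1 h3
              exact List.singleton_sublist.1 h4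
            have hql1 : q ∉ l1 := fun e => by
              have := (List.nodup_append.1 hnd).2.2 q e q (by simp [hq2])
              exact this rfl
            rw [hl, insB_split _ hn1 hn2]
            have e2 : l1 ++ en a false :: c :: l2 = (l1 ++ [en a false, c]) ++ l2 := by simp
            rw [e2, insB_append]
            have h5 : [en a true].Sublist (insB q (en a true) l2) := by
              rw [List.singleton_sublist, insB_mem]
              exact Or.inr ⟨rfl, hq2⟩
            have h6 : [en a false].Sublist (insB q (en a true) (l1 ++ [en a false, c])) := by
              rw [List.singleton_sublist, insB_mem]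
              left; simp
            exact h6.append h5
        · have : en a e ∈ X.x := by
            rcases (insB_mem _ _ _ _).1 ha with h' | ⟨h', _⟩
            · rcases (insB_mem _ _ _ _).1 h' with h'' | ⟨h'', _⟩
              · exact h''
              · exact absurd h'' (by simp [hab])
            · exact absurd h' (by simp [hab])
          exact ((X.pair a e this).trans (insB_sub _ _ _)).trans (insB_sub _ _ _) }
  else X

theorem insP_x {c q : Sy} {b : ℕ} {X : PW} (hc : c ∈ X.x) (hq : q ∈ X.x)
    (h : c = q ∨ [c, q].Sublist X.x) (hb : b ∉ X.ord) :
    (insP c q b X).x = ins2 c q b X.x := by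
  unfold insP
  rw [dif_pos ⟨⟨hc, hq⟩, h, hb⟩]

end Pool.Agent.TH547.Arc
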