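import Pool.Agent.TH547.Arc.RegSys
import Pool.Agent.TH547.Arc.Geo
set_option autoImplicit false

/-! Enclosing a puncture by a loop. -/
namespace Pool.Agent.TH547.Arc

open Finset Equiv Classical

theorem insP_mem' {c q : Sy} {b : ℕ} {X : PW} (hc : c ∈ X.x) (hq : q ∈ X.x)
    (h : c = q ∨ [c, q].Sublist X.x) (hb : b ∉ X.ord) (s : Sy) :
    s ∈ (insP c q b X).x ↔ s ∈ X.x ∨ s = en b false ∨ s = en b true := by
  rw [insP_x hc hq h hb]
  unfold ins2
  rw [insB_mem, insB_mem, insB_mem]
  tauto

/-- the symbol of `X` representing the region of a symbol -/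
noncomputable def gE (m0 : Sy) (b : ℕ) (s : Sy) : Sy := if s = en b false then m0 else s

/-- Insert before `m0` a small loop `b` which encloses the puncture `j`. -/
noncomputable def enc (m0 : Sy) (j b : ℕ) (X : RW) : RW :=
  if h : m0 ∈ X.w.x ∧ b ∉ X.w.ord then
    { w := insP m0 m0 b X.w
      R := fun s t => (s = en b true ∧ t = en b true) ∨
        (s ≠ en b true ∧ t ≠ en b true ∧ X.R (gE m0 b s) (gE m0 b t))
      χ := fun s => if s = en b true then 1 else X.χ (gE m0 b s)
      S := fun s => if s = en b true then {j} else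
        if X.R m0 (gE m0 b s) then X.S (gE m0 b s) \ {j} else X.S (gE m0 b s)
      rfl' := by
        intro s hs
        rw [insP_mem' h.1 h.1 (Or.inl rfl) h.2] at hs
        by_cases h1 : s = en b true
        · exact Or.inl ⟨h1, h1⟩
        · refine Or.inr ⟨h1, h1, ?_⟩
          unfold gE
          split_ifs with h2
          · exact X.rfl' _ h.1
          · rcases hs with hs | hs | hs
            · exact X.rfl' _ hs
            · exact absurd hs h2
            · exact absurd hs h1
      symm' := by
        rintro s t (⟨h1, h2⟩ | ⟨h1, h2, h3⟩)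
        · exact Or.inl ⟨h2, h1⟩
        · exact Or.inr ⟨h2, h1, X.symm' _ _ h3⟩
      trans' := by
        rintro s t u (⟨h1, h2⟩ | ⟨h1, h2, h3⟩) (⟨h4, h5⟩ | ⟨h4, h5, h6⟩)
        · exact Or.inl ⟨h1, h5⟩
        · exact absurd h2 h4
        · exact absurd h4 h2
        · exact Or.inr ⟨h1, h5, X.trans' _ _ _ h3 h6⟩
      mem' := by
        rintro s t (⟨h1, h2⟩ | ⟨h1, h2, h3⟩)
        · rw [insP_mem' h.1 h.1 (Or.inl rfl) h.2]; exact Or.inr (Or.inr h1)
        · rw [insP_mem' h.1 h.1 (Or.inl rfl) h.2]
          by_cases h4 : s = en b false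
          · exact Or.inr (Or.inl h4)
          · have := X.mem' _ _ h3
            unfold gE at this
            rw [if_neg h4] at this
            exact Or.inl this
      χ_eq := by
        rintro s t (⟨h1, h2⟩ | ⟨h1, h2, h3⟩)
        · rw [h1, h2]
        · rw [if_neg h1, if_neg h2, X.χ_eq _ _ h3]
      S_eq := by
        rintro s t (⟨h1, h2⟩ | ⟨h1, h2, h3⟩)
        · rw [h1, h2]
        · rw [if_neg h1, if_neg h2, X.S_eq _ _ h3]
          by_cases h4 : X.R m0 (gE m0 b s)
          · rw [if_pos h4, if_pos (X.trans' _ _ _ h4 h3)]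
          · rw [if_neg h4, if_neg (fun h5 => h4 (X.trans' _ _ _ h5 (X.symm' _ _ h3)))]
      χ_off := by
        intro s hs
        rw [insP_mem' h.1 h.1 (Or.inl rfl) h.2] at hs
        have h1 : s ≠ en b true := fun e => hs (Or.inr (Or.inr e))
        have h2 : s ≠ en b false := fun e => hs (Or.inr (Or.inl e))
        have h3 : s ∉ X.w.x := fun e => hs (Or.inl e)
        rw [if_neg h1]
        unfold gE
        rw [if_neg h2, X.χ_off _ h3]
      S_off := by
        intro s hs
        rw [insP_mem' h.1 h.1 (Or.inl rfl) h.2] at hs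
        have h1 : s ≠ en b true := fun e => hs (Or.inr (Or.inr e))
        have h2 : s ≠ en b false := fun e => hs (Or.inr (Or.inl e))
        have h3 : s ∉ X.w.x := fun e => hs (Or.inl e)
        rw [if_neg h1]
        unfold gE
        rw [if_neg h2, X.S_off _ h3]
        split_ifs <;> simp }
  else X

end Pool.Agent.TH547.Arc
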