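import Pool.Agent.TH547.Arc.Geo
set_option autoImplicit false

/-! Environments: frozen words with allowed blocks `P` and dead symbols `Dd`. -/
namespace Pool.Agent.TH547.Arc

open Finset Equiv

/-- An environment for the insertion of arcs: `μ` is the frozen word, `P` the set of symbols whose
blocks are allowed, `Dd` a set of dead symbols, a union of boundary cycles of `μ` which do not meet
`P`; every other boundary cycle meets `P`. -/
structure Env (θ : Perm Sy) (μ : PW) (P Dd : Finset Sy) : Prop where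
  flip : ∀ a, a ∉ μ.ord → ∀ e, θ (en a e) = en a (!e)
  pres : ∀ s ∈ μ.x, θ s ∈ μ.x
  last : ∃ (l : List Sy) (n : ℕ), μ.x = l ++ [mr n]
  sub : ∀ s ∈ P, s ∈ μ.x ∧ s ∉ Dd
  dsub : ∀ s ∈ Dd, s ∈ μ.x
  dinv : ∀ s ∈ Dd, fp θ μ.x s ∈ Dd
  live : ∀ s ∈ μ.x, s ∉ Dd → ∃ p ∈ P, (fp θ μ.x).SameCycle s p
  ne : P.Nonempty

/-- cells over the environment -/
def OvP (μ : PW) (P : Finset Sy) (X : PW) : Prop := Over μ.x P X.x

/-- the non-separating cells with at most `c` for the number of live boundary cycles plus the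
number of arcs -/
def PN (θ : Perm Sy) (μ : PW) (P Dd : Finset Sy) (c : ℕ) (X : PW) : Prop :=
  OvP μ P X ∧ nf θ Dd X.x + X.ord.length ≤ c

/-- tight cells in which the boundary cycle of `B` contains no symbol of `A` -/
def PA (θ : Perm Sy) (μ : PW) (P Dd : Finset Sy) (c : ℕ) (B : Sy) (A : Finset Sy) (X : PW) : Prop :=
  OvP μ P X ∧ nf θ Dd X.x + X.ord.length = c ∧ ∀ a ∈ A, ¬ (fp θ X.x).SameCycle B a

end Pool.Agent.TH547.Arc
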