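import Pool.Agent.TH547.Arc.Sys
set_option autoImplicit false

/-! Sub-quotient complexes of a system of cells and exactness. -/
namespace Pool.Agent.TH547.Arc

open Finset Classical

namespace Sys
variable {S : Sys}

/-- invariance of a predicate under renaming of the arcs not in `F` -/
def Inv (F : Finset ℕ) (P : S.C → Prop) : Prop :=
  ∀ π : Equiv.Perm ℕ, (∀ a ∈ F, π a = a) → ∀ X, P X → P (S.rn π X)

/-- the predicate on classes -/
def pq (F : Finset ℕ) (P : S.C → Prop) (q : S.Q F) : Prop := ∃ X, S.cl F X = q ∧ P X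

theorem pq_cl {F : Finset ℕ} {P : S.C → Prop} (hP : Inv F P) (X : S.C) :
    pq F P (S.cl F X) ↔ P X := by
  constructor
  · rintro ⟨Y, h, hY⟩
    obtain ⟨π, hπ, rfl⟩ := cl_eq.1 h
    exact hP π hπ Y hY
  · intro h
    exact ⟨X, rfl, h⟩

/-- number of free arcs -/
def deg (F : Finset ℕ) (X : S.C) : ℕ := (S.nm X \ F).card

theorem map_sdiff_fix {F : Finset ℕ} {π : Equiv.Perm ℕ} (h : ∀ a ∈ F, π a = a) (A : Finset ℕ) :
    A.map π.toEmbedding \ F = (A \ F).map π.toEmbedding := by
  ext b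
  simp only [Finset.mem_sdiff, Finset.mem_map, Equiv.coe_toEmbedding]
  constructor
  · rintro ⟨⟨a, ha, rfl⟩, hb⟩
    refine ⟨a, ⟨ha, fun hF => hb ?_⟩, rfl⟩
    rw [h a hF]; exact hF
  · rintro ⟨a, ⟨ha, haF⟩, rfl⟩
    refine ⟨⟨a, ha, rfl⟩, fun hF => haF ?_⟩
    have := h _ hF
    rw [π.injective this] at hF
    exact hF

theorem deg_rn {F : Finset ℕ} {π : Equiv.Perm ℕ} (h : ∀ a ∈ F, π a = a) (X : S.C) :
    deg F (S.rn π X) = deg F X := by
  unfold deg
  rw [nm_rn, map_sdiff_fix h, Finset.card_map]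

theorem deg_dl {F : Finset ℕ} {X : S.C} {a : ℕ} (h : a ∈ S.nm X \ F) :
    deg F (S.dl X a) + 1 = deg F X := by
  unfold deg
  have : S.nm (S.dl X a) \ F = (S.nm X \ F).erase a := by
    rw [nm_dl]
    ext b
    simp only [Finset.mem_sdiff, Finset.mem_erase]
    tauto
  rw [this, Finset.card_erase_of_mem h]
  have : 0 < (S.nm X \ F).card := Finset.card_pos.2 ⟨a, h⟩
  omega

theorem Inv.deg {F : Finset ℕ} {P : S.C → Prop} (hP : Inv F P) (i : ℕ) :
    Inv F (fun X => P X ∧ deg F X = i) := by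
  intro π hπ X hX
  exact ⟨hP π hπ X hX.1, by rw [deg_rn hπ]; exact hX.2⟩

theorem Inv.and {F : Finset ℕ} {P R : S.C → Prop} (hP : Inv F P) (hR : Inv F R) :
    Inv F (fun X => P X ∧ R X) :=
  fun π hπ X hX => ⟨hP π hπ X hX.1, hR π hπ X hX.2⟩

theorem Inv.rn_iff {F : Finset ℕ} {P : S.C → Prop} (hP : Inv F P) {π : Equiv.Perm ℕ}
    (hπ : ∀ a ∈ F, π a = a) (X : S.C) : P (S.rn π X) ↔ P X := by
  refine ⟨fun h => ?_, hP π hπ X⟩
  have h2 := hP π⁻¹ (fun a ha => by rw [Equiv.Perm.inv_eq_iff_eq]; exact (hπ a ha).symm) _ h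
  rwa [← S.rn_mul, inv_mul_cancel, S.rn_one] at h2

theorem Inv.not {F : Finset ℕ} {P : S.C → Prop} (hP : Inv F P) : Inv F (fun X => ¬ P X) :=
  fun _ hπ X hX h => hX ((hP.rn_iff hπ X).1 h)

/-- projection onto the chains supported on `P` -/
noncomputable def pr (F : Finset ℕ) (P : S.C → Prop) :
    (S.Q F →₀ ℤ) →ₗ[ℤ] (S.Q F →₀ ℤ) :=
  Finsupp.lsum ℤ fun q => if pq F P q then Finsupp.lsingle q else 0

theorem pr_single {F : Finset ℕ} {P : S.C → Prop} (q : S.Q F) (n : ℤ) :
    pr F P (Finsupp.single q n) = if pq F P q then Finsupp.single q n else 0 := by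
  unfold pr
  rw [Finsupp.lsum_single]
  split_ifs <;> rfl

theorem pr_apply {F : Finset ℕ} {P : S.C → Prop} (z : S.Q F →₀ ℤ) (q : S.Q F) :
    pr F P z q = if pq F P q then z q else 0 := by
  induction z using Finsupp.induction_linear with
  | zero => simp
  | add x y hx hy => rw [map_add, Finsupp.add_apply, hx, hy, Finsupp.add_apply]; split_ifs <;> simp
  | single q' n =>
    rw [pr_single]
    by_cases h : q' = q
    · subst h; split_ifs <;> simp
    · by_cases h' : pq F P q' <;> by_cases h'' : pq F P q <;>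
        simp [h', h'', h]

/-- chains of degree `i` supported on `P` -/
def Ch (F : Finset ℕ) (P : S.C → Prop) (i : ℕ) : Submodule ℤ (S.Q F →₀ ℤ) :=
  Finsupp.supported ℤ ℤ {q | pq F (fun X => P X ∧ deg F X = i) q}

theorem mem_Ch {F : Finset ℕ} {P : S.C → Prop} {i : ℕ} {z : S.Q F →₀ ℤ} :
    z ∈ Ch F P i ↔ ∀ q, z q ≠ 0 → pq F (fun X => P X ∧ deg F X = i) q := by
  unfold Ch
  rw [Finsupp.mem_supported]
  constructor
  · intro h q hq
    exact h (Finsupp.mem_support_iff.2 hq)
  · intro h q hq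
    exact h q (Finsupp.mem_support_iff.1 hq)

theorem single_mem_Ch {F : Finset ℕ} {P : S.C → Prop} {i : ℕ} {X : S.C} (hX : P X)
    (hi : deg F X = i) (n : ℤ) : Finsupp.single (S.cl F X) n ∈ Ch F P i := by
  rw [mem_Ch]
  intro q hq
  rcases eq_or_ne (S.cl F X) q with h | h
  · exact ⟨X, h, hX, hi⟩
  · rw [Finsupp.single_apply, if_neg h] at hq; exact absurd rfl hq

/-- induction principle for chains -/
theorem Ch_induction {F : Finset ℕ} {P : S.C → Prop} {i : ℕ} {p : (S.Q F →₀ ℤ) → Prop}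
    (h0 : p 0) (hadd : ∀ x y, p x → p y → p (x + y))
    (hs : ∀ X n, P X → deg F X = i → p (Finsupp.single (S.cl F X) n)) :
    ∀ z ∈ Ch F P i, p z := by
  intro z hz
  have key : ∀ (s : Finset (S.Q F)) (z : S.Q F →₀ ℤ), z.support = s → z ∈ Ch F P i → p z := by
    intro s
    induction s using Finset.induction_on with
    | empty =>
      intro z hs' _
      rw [Finsupp.support_eq_empty.1 hs']; exact h0
    | insert q s hq ih =>
      intro z hsupp hz
      have hzq : z q ≠ 0 := by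
        rw [← Finsupp.mem_support_iff, hsupp]; exact Finset.mem_insert_self _ _
      obtain ⟨X, hX, hPX, hdX⟩ := mem_Ch.1 hz q hzq
      rw [← Finsupp.single_add_erase q z]
      refine hadd _ _ ?_ (ih _ ?_ ?_)
      · rw [← hX]; exact hs X _ hPX hdX
      · rw [Finsupp.support_erase, hsupp, Finset.erase_insert hq]
      · rw [mem_Ch]
        intro q' hq'
        rw [Finsupp.erase_apply] at hq'
        split_ifs at hq' with h
        · exact absurd rfl hq'
        · exact mem_Ch.1 hz q' hq'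
  exact key _ z rfl hz

/-- the differential of the sub-quotient complex -/
noncomputable def D (F : Finset ℕ) (P : S.C → Prop) :
    (S.Q F →₀ ℤ) →ₗ[ℤ] (S.Q F →₀ ℤ) := (pr F P).comp (S.d F)

/-- the projected boundary of a labelled cell -/
noncomputable def D0 (F : Finset ℕ) (P : S.C → Prop) (X : S.C) : S.Q F →₀ ℤ :=
  ∑ a ∈ (S.nm X \ F).filter (fun a => P (S.dl X a)),
    Finsupp.single (S.cl F (S.dl X a)) (S.sg X a)

theorem pr_d0 {F : Finset ℕ} {P : S.C → Prop} (hP : Inv F P) (X : S.C) :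
    pr F P (S.d0 F X) = D0 F P X := by
  unfold d0 D0
  rw [map_sum, Finset.sum_filter]
  refine Finset.sum_congr rfl fun a _ => ?_
  rw [pr_single]
  by_cases h : P (S.dl X a)
  · rw [if_pos h, if_pos ((pq_cl hP _).2 h)]
  · rw [if_neg h, if_neg (fun h' => h ((pq_cl hP _).1 h'))]

theorem D_single {F : Finset ℕ} {P : S.C → Prop} (hP : Inv F P) (X : S.C) (n : ℤ) :
    D F P (Finsupp.single (S.cl F X) n) = n • D0 F P X := by
  unfold D
  rw [LinearMap.comp_apply, d_single, map_smul, pr_d0 hP]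

theorem D0_mem {F : Finset ℕ} {P : S.C → Prop} {i : ℕ} (X : S.C) (hd : deg F X = i + 1) :
    D0 F P X ∈ Ch F P i := by
  unfold D0
  refine Submodule.sum_mem _ fun a ha => ?_
  rw [Finset.mem_filter] at ha
  refine single_mem_Ch ha.2 ?_ _
  have := deg_dl ha.1
  omega

theorem D_mem {F : Finset ℕ} {P : S.C → Prop} (hP : Inv F P) {i : ℕ} {z : S.Q F →₀ ℤ}
    (hz : z ∈ Ch F P (i + 1)) : D F P z ∈ Ch F P i := by
  refine Ch_induction (p := fun z => D F P z ∈ Ch F P i) ?_ ?_ ?_ z hz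
  · simp
  · intro x y hx hy; rw [map_add]; exact Submodule.add_mem _ hx hy
  · intro X n _ hd
    rw [D_single hP]
    exact Submodule.smul_mem _ _ (D0_mem X hd)

theorem D_zero_deg {F : Finset ℕ} {P : S.C → Prop} (hP : Inv F P) {z : S.Q F →₀ ℤ}
    (hz : z ∈ Ch F P 0) : D F P z = 0 := by
  refine Ch_induction (p := fun z => D F P z = 0) ?_ ?_ ?_ z hz
  · simp
  · intro x y hx hy; rw [map_add, hx, hy, add_zero]
  · intro X n _ hd
    rw [D_single hP]
    unfold D0
    rw [show (S.nm X \ F) = ∅ from Finset.card_eq_zero.1 hd]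
    simp

/-- `P` is convex: it is a difference of two predicates closed under deletion -/
def Cvx (F : Finset ℕ) (P : S.C → Prop) : Prop :=
  ∀ X, P X → ∀ a ∈ S.nm X \ F, ∀ b ∈ S.nm X \ F, a ≠ b →
    P (S.dl (S.dl X a) b) → P (S.dl X a)

theorem D_D {F : Finset ℕ} {P : S.C → Prop} (hP : Inv F P) (hc : Cvx F P) {i : ℕ}
    {z : S.Q F →₀ ℤ} (hz : z ∈ Ch F P i) : D F P (D F P z) = 0 := by
  refine Ch_induction (p := fun z => D F P (D F P z) = 0) ?_ ?_ ?_ z hz
  · simp
  · intro x y hx hy; rw [map_add, map_add, hx, hy, add_zero]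
  · intro X n hPX hd
    have key : D F P (D0 F P X) = 0 := by
      have h1 : pr F P (S.d F (S.d0 F X)) = 0 := by rw [d_d0, map_zero]
      have h2 : S.d0 F X = D0 F P X +
          ∑ a ∈ (S.nm X \ F).filter (fun a => ¬ P (S.dl X a)),
            Finsupp.single (S.cl F (S.dl X a)) (S.sg X a) := by
        unfold d0 D0
        rw [Finset.sum_filter_add_sum_filter_not]
      rw [h2, map_add, map_add] at h1
      have h3 : pr F P (S.d F (∑ a ∈ (S.nm X \ F).filter (fun a => ¬ P (S.dl X a)),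
            Finsupp.single (S.cl F (S.dl X a)) (S.sg X a))) = 0 := by
        rw [map_sum, map_sum]
        refine Finset.sum_eq_zero fun a ha => ?_
        rw [Finset.mem_filter] at ha
        rw [d_single, map_smul, pr_d0 hP]
        have : D0 F P (S.dl X a) = 0 := by
          unfold D0
          refine Finset.sum_eq_zero fun b hb => ?_
          rw [Finset.mem_filter, nm_dl, Finset.mem_sdiff, Finset.mem_erase] at hb
          exact absurd (hc X hPX a ha.1 b (Finset.mem_sdiff.2 ⟨hb.1.1.2, hb.1.2⟩)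
            (Ne.symm hb.1.1.1) hb.2) ha.2
        rw [this, smul_zero]
      rw [h3, add_zero] at h1
      exact h1
    rw [D_single hP, map_smul, key, smul_zero]

/-- exactness in degree `i` of the sub-quotient complex given by `P` -/
def Ex (F : Finset ℕ) (P : S.C → Prop) (i : ℕ) : Prop :=
  ∀ z ∈ Ch F P i, D F P z = 0 → ∃ w ∈ Ch F P (i + 1), D F P w = z

end Sys

end Pool.Agent.TH547.Arc
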