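import Pool.Agent.TH547.Arc.Transfer
import Pool.Agent.TH110.J940
set_option autoImplicit false

/-! The vanishing theorem for the spectral sequence of the arc complex. -/
namespace Pool.Agent.TH547.Arc

open Finset Equiv

/-- families of loops over a fixed region word: exactness below the top degree -/
theorem G_thm (θ : Perm Sy) : ∀ E : RW, EnvR θ E → ∀ i : ℕ, (i : ℤ) < E.rk →
    Sys.Ex (S := RWS) (RWS.nm E) (OvR θ E) i :=
  Pool.Agent.TH295.J986.G_of_df fun _ hE hdf i hi =>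
    Pool.Agent.TH515.J1113.D_thm
      (fun _ _ _ hEnv hpar _ hj => Pool.Agent.TH110.J940.N_thm hEnv hE.fixm hpar hj) hE hdf i hi

theorem E0_zero_of {g : ℕ} {δ : List ℕ} {s : ℕ} {u v : ℤ}
    (h : ∀ X : RW, IsCell g δ s X → v = -X.rk → (X.w.ord.length : ℤ) - 1 = u + v → False)
    {z : RWS.Q ∅ →₀ ℤ} (hz : z ∈ E0 g δ s u v) : z = 0 := by
  unfold E0 at hz
  rw [Finsupp.mem_supported] at hz
  rw [← Finsupp.support_eq_empty, Finset.eq_empty_iff_forall_notMem]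
  intro q hq
  obtain ⟨X, _, h2, h3, h4⟩ := hz hq
  exact h X h2 h3 h4

theorem below {g : ℕ} {δ : List ℕ} {s : ℕ} (hδ : ∀ d ∈ δ, 1 ≤ d) {u v : ℤ}
    (hv : ∃ X, IsCell g δ s X ∧ v < -X.rk) (huv : u + v ≠ 0) {z : RWS.Q ∅ →₀ ℤ}
    (hz : z ∈ E0 g δ s u v) (hdz : d2 z = 0) : ∃ w ∈ E0 g δ s u (v + 1), d2 w = z := by
  obtain ⟨X0, hX0, hv0⟩ := hv
  have hE : EnvR (thF δ) (surf g δ s) := surf_env hδ hX0.1
  have hrk := Pool.Agent.TH295.J1112.rk_nonneg hX0.1.1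
  by_cases hneg : u + v < 0
  · -- there are no cells
    have h0 : z = 0 := E0_zero_of (fun X h1 _ h3 => by
      have : X.w.ord.length ≠ 0 := fun h => h1.2 (List.length_eq_zero_iff.1 h)
      omega) hz
    exact ⟨0, Submodule.zero_mem _, by rw [map_zero, h0]⟩
  · obtain ⟨i, hi⟩ : ∃ i : ℕ, (i : ℤ) = u + v + 1 := ⟨(u + v + 1).toNat, by omega⟩
    have hi2 : 2 ≤ i := by omega
    rw [E0_eq hi (by omega)] at hz
    rw [d2_eq hE hi2 hz] at hdz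
    obtain ⟨w, hw, hw'⟩ := Pool.Agent.TH745.J1114.PM_ex hE (nm_surf g δ s) (u + 1)
      (G_thm (thF δ)) i (by omega) z hz hdz
    refine ⟨w, ?_, ?_⟩
    · rw [E0_eq (i := i + 1) (by push_cast; omega) (by omega)]
      exact hw
    · rw [d2_eq hE (by omega : 2 ≤ i + 1) hw]
      exact hw'

theorem vanishing {g : ℕ} {δ : List ℕ} {s : ℕ} (hδ : ∀ d ∈ δ, 1 ≤ d) {u v : ℤ}
    (hv : ¬ IsGreatest {w : ℤ | ∃ X : RW, IsCell g δ s X ∧ w = -X.rk} v) (huv : u + v ≠ 0)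
    {z : RWS.Q ∅ →₀ ℤ} (hz : z ∈ E0 g δ s u v) (hdz : d2 z = 0) :
    ∃ w ∈ E0 g δ s u (v + 1), d2 w = z := by
  by_cases hocc : ∃ X : RW, IsCell g δ s X ∧ v = -X.rk
  · refine below hδ ?_ huv hz hdz
    by_contra hcon
    apply hv
    refine ⟨hocc, ?_⟩
    rintro w ⟨X, hX, rfl⟩
    by_contra hlt
    exact hcon ⟨X, hX, by omega⟩
  · have h0 : z = 0 := E0_zero_of (fun X h1 h2 _ => hocc ⟨X, h1, h2⟩) hz
    exact ⟨0, Submodule.zero_mem _, by rw [map_zero, h0]⟩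

/-- the vanishing theorem in terms of `Cell` -/
theorem vanishing' (g : ℕ) (δ : List ℕ) (s : ℕ) (hδ : ∀ d ∈ δ, 1 ≤ d) (u v : ℤ)
    (hv : ¬ IsGreatest {w : ℤ | ∃ X : RW, IsArcFamily g δ s X ∧ w = -X.rk} v)
    (huv : u + v ≠ 0) (z : Cell →₀ ℤ) (hz : InE0 g δ s u v z) (hdz : bd2 z = 0) :
    ∃ w : Cell →₀ ℤ, InE0 g δ s u (v + 1) w ∧ bd2 w = z := by
  have hset : {w : ℤ | ∃ X : RW, IsArcFamily g δ s X ∧ w = -X.rk} =
      {w : ℤ | ∃ X : RW, IsCell g δ s X ∧ w = -X.rk} := by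
    ext w
    exact ⟨fun ⟨X, h, h'⟩ => ⟨X, isArcFamily_iff.1 h, h'⟩,
      fun ⟨X, h, h'⟩ => ⟨X, isArcFamily_iff.2 h, h'⟩⟩
  rw [hset] at hv
  obtain ⟨w, hw, hw'⟩ := vanishing hδ hv huv (inE0_iff.1 hz)
    (by rw [← mQ_bd2, hdz, map_zero])
  refine ⟨mQ.symm w, ?_, ?_⟩
  · rw [inE0_iff, AddEquiv.apply_symm_apply]
    exact hw
  · apply mQ.injective
    rw [mQ_bd2, AddEquiv.apply_symm_apply]
    exact hw'

/-- `∂²` has bidegree `(0, -1)` -/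
theorem InE0.bd2 {g : ℕ} {δ : List ℕ} {s : ℕ} {u v : ℤ} {z : Cell →₀ ℤ}
    (hz : InE0 g δ s u v z) : InE0 g δ s u (v - 1) (Arc.bd2 z) := by
  rw [inE0_iff, mQ_bd2]
  exact d2_mem (inE0_iff.1 hz)

/-- `∂²` is a differential -/
theorem InE0.bd2_bd2 {g : ℕ} {δ : List ℕ} {s : ℕ} (hδ : ∀ d ∈ δ, 1 ≤ d) {u v : ℤ}
    {z : Cell →₀ ℤ} (hz : InE0 g δ s u v z) : Arc.bd2 (Arc.bd2 z) = 0 := by
  apply mQ.injective
  rw [mQ_bd2, mQ_bd2, map_zero]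
  exact d2_sq hδ (inE0_iff.1 hz)

end Pool.Agent.TH547.Arc
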