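import Pool.Agent.TH547.Arc.Words
set_option autoImplicit false

/-! Insertion of symbols and arcs into words. -/
namespace Pool.Agent.TH547.Arc

open Finset Equiv

/-- insert the symbol `s` immediately before the symbol `t` -/
def insB (t s : Sy) (x : List Sy) : List Sy := x.flatMap (fun u => if u = t then [s, u] else [u])

/-- insertion of the arc `b` with its first end before `c` and its second end before `q` -/
def ins2 (c q : Sy) (b : ℕ) (x : List Sy) : List Sy := insB q (en b true) (insB c (en b false) x)

end Pool.Agent.TH547.Arc
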