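import Pool.Agent.TH547.Arc.Push
import Pool.Agent.TH547.Arc.Env
set_option autoImplicit false

/-! Insertion of markers. -/
namespace Pool.Agent.TH547.Arc

open Finset Equiv

/-- insert the marker `mr n` immediately before `t` -/
noncomputable def insM (t : Sy) (n : ℕ) (X : PW) : PW :=
  open Classical in
  if h : mr n ∉ X.x then
    { x := insB t (mr n) X.x
      nd := insB_nd _ _ X.nd h
      pair := by
        intro b e hb
        have : en b e ∈ X.x := by
          rcases (insB_mem _ _ _ _).1 hb with h' | ⟨h', _⟩
          · exact h'
          · exact absurd h' (by simp)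
        exact (X.pair b e this).trans (insB_sub _ _ _) }
  else X

theorem insM_x {t : Sy} {n : ℕ} {X : PW} (h : mr n ∉ X.x) : (insM t n X).x = insB t (mr n) X.x := by
  unfold insM
  rw [dif_pos h]

/-- the frozen word `μ` with the markers of the list `l` inserted before `p`, in the order of
the list -/
noncomputable def muL (p : Sy) (μ : PW) : List ℕ → PW
  | [] => μ
  | n :: l => muL p (insM p n μ) l

/-- the names of the auxiliary markers (`≥ N0`) of a word -/
def JJ (N0 : ℕ) (X : PW) : Finset ℕ :=
  (X.x.filterMap (fun s => match s with
    | mr n => if N0 ≤ n then some n else none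
    | _ => none)).toFinset

end Pool.Agent.TH547.Arc
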