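import Pool.Agent.TH547.Arc.RegDef
set_option autoImplicit false

/-!
# A combinatorial model of the arc complex of a bordered surface

The cells of `Arc(F)`, `F = F^s_{g,δ}`, i.e. the orbits of arc families under the pure mapping
class group, are described by their standard combinatorial encoding.

* The distinguished points are numbered `0, 1, 2, ...`, boundary component by boundary component
  and in the cyclic order of each component.  The symbol `mr j` stands for the `j`-th point and
  for the boundary segment which leaves it (towards the next point of the same component).
* An arc `a` has two ends `en a false` and `en a true`.  At each distinguished point the ends of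
  arcs are linearly ordered, from the incoming to the outgoing boundary segment.  The cell is
  described by the list in which the ends at the point `0` are followed by `mr 0`, then come the
  ends at the point `1`, followed by `mr 1`, and so on.  Such lists are called words.  Each arc
  is directed so that the end `en a false` comes first.  The names of the arcs are natural
  numbers and are only used up to renaming.
* Every symbol of the list is a side (of an arc, or a boundary segment) seen from one of the
  regions of the surface cut along the arcs: the side which one follows when one leaves the
  corner just before the symbol.  `fp θ x` is the face permutation: follow the side to its other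
  end, and turn to the next symbol there.  Its cycles are the boundary cycles of the surface cut
  along the arcs.
* The regions are given by the equivalence relation `R` on the symbols (two sides belong to the
  same region), the Euler characteristic `χ` of the region with its punctures filled in, and the
  set `S` of its punctures.  This is the structure `RW`.  The region is realizable if it is a
  union of boundary cycles and `χ = 2 - 2 h - b` with a genus `h ≥ 0` and `b` the number of its
  boundary cycles, and if different regions have disjoint sets of punctures (`RW.Good`).
* Deletion of an arc (`RW.dl`) glues the regions on the two sides of the arc.

By the classification of surfaces such data, up to renaming of the arcs, with the property that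
deletion of all arcs gives the surface `F`, are the same as orbits of arc families (possibly
with isotopic or inessential arcs) under the pure mapping class group; the arcs are essential,
not boundary parallel and pairwise not isotopic if and only if no region is a disc without
punctures and with at most two sides (`RW.ND`).
-/
namespace Pool.Agent.TH547.Arc

open Finset Equiv

/-- exchange of the two ends of all arcs -/
def flipS : Perm Sy where
  toFun := fun s => match s with
    | mr n => mr n
    | en a e => en a (!e)
  invFun := fun s => match s with
    | mr n => mr n
    | en a e => en a (!e)
  left_inv := by intro s; cases s <;> simp
  right_inv := by intro s; cases s <;> simp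

/-- the last distinguished point of each boundary component, for the numbers `δ` of
distinguished points, the first point having the number `k` -/
def lasts : ℕ → List ℕ → List ℕ
  | _, [] => []
  | k, d :: δ => (k + d - 1) :: lasts (k + d) δ

/-- the word without arcs -/
def muF (δ : List ℕ) : PW where
  x := (List.range δ.sum).map mr
  nd := List.nodup_range.map (fun a b h => by simpa using h)
  pair := by
    intro a e h
    simp at h

/-- The permutation `θ` which describes how boundary cycles run: the side `en a e` of an arc
continues at the other end of the arc; the boundary segment `mr j` continues at the first symbol
of the next distinguished point of the component of the `j`-th point, that is directly after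
`mr j` if this is not the last point of its component, and (cyclically) directly after the last
point of the preceding component otherwise. -/
def thF (δ : List ℕ) : Perm Sy := ((lasts 0 δ).map mr).reverse.formPerm * flipS

open Classical in
/-- the surface `F^s_{g,δ}` itself, as a region word without arcs: one region of Euler
characteristic `2 - 2 g - r` with the punctures `0, ..., s - 1` -/
noncomputable def surf (g : ℕ) (δ : List ℕ) (s : ℕ) : RW where
  w := muF δ
  R x y := x ∈ (muF δ).x ∧ y ∈ (muF δ).x
  χ x := if x ∈ (muF δ).x then 2 - 2 * g - δ.length else 0
  S x := if x ∈ (muF δ).x then Finset.range s else ∅
  rfl' _ h := ⟨h, h⟩
  symm' _ _ h := ⟨h.2, h.1⟩
  trans' _ _ _ h h' := ⟨h.1, h'.2⟩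
  mem' _ _ h := h.1
  χ_eq _ _ h := by rw [if_pos h.1, if_pos h.2]
  S_eq _ _ h := by rw [if_pos h.1, if_pos h.2]
  χ_off _ h := if_neg h
  S_off _ h := if_neg h

/-- `X` is a (nonempty) arc family of `F^s_{g,δ}`, up to the pure mapping class group and up to the
names of the arcs: the regions are realizable, deletion of all arcs gives the surface, and there
is no unpunctured disc region with at most two sides (the arcs are essential, not boundary
parallel and pairwise not isotopic). -/
def IsArcFamily (g : ℕ) (δ : List ℕ) (s : ℕ) (X : RW) : Prop :=
  RW.Good (thF δ) X ∧ X.w.ord.foldl RW.dl X = surf g δ s ∧ RW.ND X ∧ X.w.ord ≠ []

/-- classes of region words under renaming of the arcs; the cells of `Arc(F)` are the classes of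
arc families -/
def Cell : Type := Quot fun X Y : RW => ∃ π : Perm ℕ, Y = X.rn π

/-- the class of a region word -/
def RW.cell (X : RW) : Cell := Quot.mk _ X

open Classical in
/-- The differential `∂²` of a cell: the sum of the nonempty faces of the second kind (for which
the rank of `H_1` is larger by one); the sign of the face obtained by deletion of the `k`-th arc
(`k = 0, 1, ...`) is `(-1) ^ k`. -/
noncomputable def RW.bd2 (X : RW) : Cell →₀ ℤ :=
  ∑ a ∈ X.w.ord.toFinset.filter (fun a => (X.dl a).w.ord ≠ [] ∧ (X.dl a).rk = X.rk + 1),
    Finsupp.single (X.dl a).cell ((-1) ^ X.w.ord.idxOf a)

end Pool.Agent.TH547.Arc
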