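import Pool.Agent.TH547.Arc.ModelInv
set_option autoImplicit false

/-! The spectral sequence of the arc complex: `E^0` and its differential. -/
namespace Pool.Agent.TH547.Arc

open Finset Equiv

/-- the differential `∂²` of a cell -/
noncomputable def Cell.bd2 : Cell → (Cell →₀ ℤ) :=
  Quot.lift RW.bd2 (by rintro X Y ⟨π, rfl⟩; exact (RW.bd2_rn π X).symm)

/-- the differential `∂²` of an integral chain -/
noncomputable def bd2 (z : Cell →₀ ℤ) : Cell →₀ ℤ := z.sum fun q n => n • q.bd2

/-- The chain `z` belongs to `E^0_{u,v}`: it is a chain of cells `X` with `v = - rank H_1` and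
dimension `(number of arcs) - 1 = u + v`. -/
def InE0 (g : ℕ) (δ : List ℕ) (s : ℕ) (u v : ℤ) (z : Cell →₀ ℤ) : Prop :=
  ∀ q ∈ z.support, ∃ X : RW, X.cell = q ∧ IsArcFamily g δ s X ∧ v = -X.rk ∧
    (X.w.ord.length : ℤ) - 1 = u + v

end Pool.Agent.TH547.Arc
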