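import Pool.Agent.TH547.Arc.Model
import Pool.Agent.TH745.J984
set_option autoImplicit false

/-! The differential of a cell does not depend on the names of the arcs. -/
namespace Pool.Agent.TH547.Arc

open Finset Equiv

theorem RW.cell_rn (π : Perm ℕ) (X : RW) : (X.rn π).cell = X.cell :=
  (Quot.sound ⟨π, rfl⟩).symm

theorem RW.bd2_rn (π : Perm ℕ) (X : RW) : (X.rn π).bd2 = X.bd2 := by
  classical
  unfold RW.bd2
  symm
  have hdl : ∀ a, (X.rn π).dl (π a) = (X.dl a).rn π := fun a => RWS.dl_rn π X a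
  have hord : ∀ Y : RW, (Y.rn π).w.ord = Y.w.ord.map π := fun Y => RWS.ord_rn π Y
  have hmem : ∀ a, π a ∈ (X.rn π).w.ord.toFinset ↔ a ∈ X.w.ord.toFinset := by
    intro a
    rw [List.mem_toFinset, List.mem_toFinset, hord, List.mem_map]
    constructor
    · rintro ⟨b, hb, h⟩; rwa [← π.injective h]
    · intro h; exact ⟨a, h, rfl⟩
  have hcond : ∀ a, (((X.rn π).dl (π a)).w.ord ≠ [] ∧ ((X.rn π).dl (π a)).rk = (X.rn π).rk + 1) ↔
      ((X.dl a).w.ord ≠ [] ∧ (X.dl a).rk = X.rk + 1) := by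
    intro a
    rw [hdl, hord, Pool.Agent.TH745.J984.RW.rk_rn, Pool.Agent.TH745.J984.RW.rk_rn]
    simp only [ne_eq, List.map_eq_nil_iff]
  refine Finset.sum_bij (fun a _ => π a) ?_ ?_ ?_ ?_
  · intro a ha
    rw [Finset.mem_filter] at ha ⊢
    exact ⟨(hmem a).2 ha.1, (hcond a).2 ha.2⟩
  · intro a _ b _ hab
    exact π.injective hab
  · intro b hb
    obtain ⟨a, rfl⟩ := π.surjective b
    rw [Finset.mem_filter] at hb
    exact ⟨a, Finset.mem_filter.2 ⟨(hmem a).1 hb.1, (hcond a).1 hb.2⟩, rfl⟩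
  · intro a _
    have h2 : ((-1 : ℤ)) ^ ((X.rn π).w.ord.idxOf (π a)) = (-1) ^ (X.w.ord.idxOf a) :=
      Sys.sg_rn (S := RWS) π X a
    rw [hdl, RW.cell_rn, h2]

end Pool.Agent.TH547.Arc
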