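import Pool.Agent.TH547.Arc.Ins
set_option autoImplicit false

/-! Null-homologous inclusions and restriction functions. -/
namespace Pool.Agent.TH547.Arc

namespace Sys
variable {S : Sys}

/-- cycles of the sub complex `P1` of `P` bound in `P` -/
def NH (F : Finset ℕ) (P P1 : S.C → Prop) (i : ℕ) : Prop :=
  ∀ z ∈ Ch F P1 i, D F P z = 0 → ∃ w ∈ Ch F P (i + 1), D F P w = z

end Sys

end Pool.Agent.TH547.Arc
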