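import Pool.Agent.TH547.Arc.RegSys
import Pool.Agent.TH547.Arc.Env
set_option autoImplicit false

/-! Words over a frozen word whose symbols are coloured: pieces of one colour, and the
reconstruction of a region word from its underlying word. -/
namespace Pool.Agent.TH547.Arc

open Finset Equiv Classical

/-- the colour of a symbol of `X`: the colour of its owner in `μ` -/
noncomputable def col (μ : PW) (κ : Sy → Sy) (X : PW) (s : Sy) : Option Sy :=
  (own μ.x X.x s).map κ

/-- the free arcs of colour `t` -/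
noncomputable def arcsC (μ : PW) (κ : Sy → Sy) (t : Sy) (X : PW) : Finset ℕ :=
  (W.nm X \ W.nm μ).filter (fun a => col μ κ X (en a false) = some t)

/-- frozen symbols with colour in `T` -/
noncomputable def PC (μ : PW) (κ : Sy → Sy) (T : Finset Sy) : Finset Sy :=
  μ.x.toFinset.filter (fun s => κ s ∈ T)

/-- frozen symbols with colour not in `T` -/
noncomputable def DC (μ : PW) (κ : Sy → Sy) (T : Finset Sy) : Finset Sy :=
  μ.x.toFinset.filter (fun s => κ s ∉ T)

/-- the piece of colour `t`: delete all free arcs of other colours -/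
noncomputable def pc (μ : PW) (κ : Sy → Sy) (t : Sy) (X : PW) : PW :=
  rsN (W.nm μ ∪ arcsC μ κ t X) X

/-- both ends of a free arc have the same colour -/
def CA (μ : PW) (κ : Sy → Sy) (X : PW) : Prop :=
  ∀ a ∈ W.nm X \ W.nm μ, col μ κ X (en a false) = col μ κ X (en a true)

/-- coloured environments -/
structure EnvK (θ : Perm Sy) (μ : PW) (κ : Sy → Sy) : Prop where
  flip : ∀ a, a ∉ μ.ord → ∀ e, θ (en a e) = en a (!e)
  pres : ∀ s ∈ μ.x, θ s ∈ μ.x
  fixm : ∀ n, mr n ∉ μ.x → θ (mr n) = mr n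
  last : ∃ (l : List Sy) (n : ℕ), μ.x = l ++ [mr n]
  inv : ∀ s ∈ μ.x, κ (fp θ μ.x s) = κ s

/-- words all of whose pieces are nonseparating -/
def PK (θ : Perm Sy) (μ : PW) (κ : Sy → Sy) (c : Sy → ℕ) (T : Finset Sy) (X : PW) : Prop :=
  OvP μ (PC μ κ T) X ∧ CA μ κ X ∧
    ∀ t ∈ T, PN θ μ (PC μ κ {t}) (DC μ κ {t}) (c t) (pc μ κ t X)

/-- the first symbol of the region of `s` -/
noncomputable def RW.kap (E : RW) (s : Sy) : Sy :=
  (E.w.x.find? (fun t => decide (E.R s t))).getD s

/-- number of free arcs of `X` in the region of the frozen symbol `m` -/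
noncomputable def kE (E : RW) (X : PW) (m : Sy) : ℕ :=
  ((W.nm X \ RWS.nm E).filter
    (fun a => ∃ n, own E.w.x X.x (en a false) = some n ∧ E.R m n)).card

theorem kE_congr {E : RW} {X : PW} {m n : Sy} (h : E.R m n) : kE E X m = kE E X n := by
  unfold kE
  congr 1
  refine Finset.filter_congr fun a _ => ?_
  constructor
  · rintro ⟨k, h1, h2⟩
    exact ⟨k, h1, E.trans' _ _ _ (E.symm' _ _ h) h2⟩
  · rintro ⟨k, h1, h2⟩
    exact ⟨k, h1, E.trans' _ _ _ h h2⟩

/-- the region word over `E` with underlying word `X`, all free arcs being nonseparating in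
their region -/
noncomputable def mkR (E : RW) (X : PW) : RW where
  w := X
  R s t := s ∈ X.x ∧ t ∈ X.x ∧ (s = t ∨
    ∃ m n, own E.w.x X.x s = some m ∧ own E.w.x X.x t = some n ∧ E.R m n)
  χ s := if s ∈ X.x then
    (((own E.w.x X.x s).map (fun m => E.χ m + kE E X m)).getD 0) else 0
  S s := if s ∈ X.x then (((own E.w.x X.x s).map E.S).getD ∅) else ∅
  rfl' s hs := ⟨hs, hs, Or.inl rfl⟩
  symm' := by
    rintro s t ⟨h1, h2, h3⟩
    refine ⟨h2, h1, ?_⟩
    rcases h3 with h3 | ⟨m, n, h4, h5, h6⟩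
    · exact Or.inl h3.symm
    · exact Or.inr ⟨n, m, h5, h4, E.symm' _ _ h6⟩
  trans' := by
    rintro s t u ⟨h1, h2, h3⟩ ⟨_, h5, h6⟩
    refine ⟨h1, h5, ?_⟩
    rcases h3 with rfl | ⟨m, n, h4, h7, h8⟩
    · exact h6
    · rcases h6 with rfl | ⟨m', n', h9, h10, h11⟩
      · exact Or.inr ⟨m, n, h4, h7, h8⟩
      · rw [h7] at h9
        cases h9
        exact Or.inr ⟨m, n', h4, h10, E.trans' _ _ _ h8 h11⟩
  mem' s t h := h.1
  χ_eq := by
    rintro s t ⟨h1, h2, h3⟩
    rcases h3 with rfl | ⟨m, n, h4, h5, h6⟩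
    · rfl
    · rw [if_pos h1, if_pos h2, h4, h5]
      simp only [Option.map_some, Option.getD_some]
      rw [E.χ_eq _ _ h6, kE_congr h6]
  S_eq := by
    rintro s t ⟨h1, h2, h3⟩
    rcases h3 with rfl | ⟨m, n, h4, h5, h6⟩
    · rfl
    · rw [if_pos h1, if_pos h2, h4, h5]
      simp only [Option.map_some, Option.getD_some]
      rw [E.S_eq _ _ h6]
  χ_off s hs := if_neg hs
  S_off s hs := if_neg hs

/-- the bound for the region of the symbol `t` -/
noncomputable def cE (E : RW) (t : Sy) : ℕ := (2 - E.χ t).toNat + E.w.ord.length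

/-- the arcs which are not loops of the dual graph -/
noncomputable def RW.nlp (X : RW) : Finset ℕ := (RWS.nm X).filter (fun a => ¬ X.Loop a)

/-- delete all loops -/
noncomputable def RW.core (X : RW) : RW := RWS.res X.nlp X

/-- arc families on the surface `E0` (a region word without arcs) such that the number of arcs
plus the rank is `M` -/
def PM (θ : Perm Sy) (E0 : RW) (M : ℤ) (X : RW) : Prop :=
  RW.Good θ X ∧ RWS.res ∅ X = E0 ∧ RW.ND X ∧ (X.w.ord.length : ℤ) + X.rk = M

end Pool.Agent.TH547.Arc
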