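import Pool.Agent.TH547.Arc.NH
set_option autoImplicit false

/-! Maps of complexes induced by natural maps of cells. -/
namespace Pool.Agent.TH547.Arc

open Finset Equiv Classical

namespace Sys
variable {S : Sys}

/-- `f` is natural on the cells satisfying `P` -/
structure Nat (F : Finset ℕ) (P : S.C → Prop) (f : S.C → S.C) : Prop where
  ord : ∀ X, P X → S.ord (f X) = S.ord X
  dl : ∀ X, P X → ∀ a ∈ S.nm X \ F, S.dl (f X) a = f (S.dl X a)
  rn : ∀ X, P X → ∀ π : Perm ℕ, (∀ a ∈ F, π a = a) → f (S.rn π X) = S.rn π (f X)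

/-- the linear map of chains induced by `f` on the cells satisfying `P` (and zero elsewhere);
the value on a class is computed with a chosen representative -/
noncomputable def push (F : Finset ℕ) (P : S.C → Prop) (f : S.C → S.C) :
    (S.Q F →₀ ℤ) →ₗ[ℤ] (S.Q F →₀ ℤ) :=
  Finsupp.lsum ℤ fun q =>
    if h : pq F P q then Finsupp.lsingle (S.cl F (f h.choose)) else 0

/-- `ins b X` is a natural insertion of the arc `b`, which takes the cells satisfying `P1` to
cells satisfying `P`; deletion of `b` gives `g X` -/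
structure NatIns (F : Finset ℕ) (P1 P : S.C → Prop) (ins : ℕ → S.C → S.C) (g : S.C → S.C) :
    Prop where
  nm : ∀ X b, P1 X → b ∉ S.nm X → b ∉ F → S.nm (ins b X) = insert b (S.nm X)
  dlb : ∀ X b, P1 X → b ∉ S.nm X → b ∉ F → S.dl (ins b X) b = g X
  mem : ∀ X b, P1 X → b ∉ S.nm X → b ∉ F → P (ins b X)
  memg : ∀ X, P1 X → P (g X)
  dl : ∀ X b, P1 X → b ∉ S.nm X → b ∉ F → ∀ a ∈ S.nm X \ F,
    S.dl (ins b X) a = ins b (S.dl X a)
  iff : ∀ X b, P1 X → b ∉ S.nm X → b ∉ F → ∀ a ∈ S.nm X \ F,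
    (P (ins b (S.dl X a)) ↔ P1 (S.dl X a))
  rn : ∀ X b, P1 X → b ∉ S.nm X → b ∉ F → ∀ π : Perm ℕ, (∀ a ∈ F, π a = a) →
    S.rn π (ins b X) = ins (π b) (S.rn π X)

end Sys

/-- remove the marker `mr n` -/
def delM (n : ℕ) (X : PW) : PW where
  x := X.x.filter (fun s => decide (s ≠ mr n))
  nd := X.nd.filter _
  pair := by
    intro b e hb
    rw [List.mem_filter] at hb
    have h := (X.pair b e hb.1).filter (fun s => decide (s ≠ mr n))
    rwa [List.filter_cons_of_pos (by simp), List.filter_cons_of_pos (by simp),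
      List.filter_nil] at h

end Pool.Agent.TH547.Arc
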