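import Pool.Agent.TH547.Arc.WordDef
set_option autoImplicit false

/-! Paired words with a region structure. -/
namespace Pool.Agent.TH547.Arc

open Finset Equiv Classical

/-- A region word: a paired word, an equivalence relation `R` on its symbols (being in the same
region), the Euler characteristic `χ` and the set of punctures `S` of the region of a symbol. -/
@[ext] structure RW where
  /-- the word -/
  w : PW
  /-- same region -/
  R : Sy → Sy → Prop
  /-- Euler characteristic of the region (punctures filled in) -/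
  χ : Sy → ℤ
  /-- punctures of the region -/
  S : Sy → Finset ℕ
  rfl' : ∀ s ∈ w.x, R s s
  symm' : ∀ s t, R s t → R t s
  trans' : ∀ s t u, R s t → R t u → R s u
  mem' : ∀ s t, R s t → s ∈ w.x
  χ_eq : ∀ s t, R s t → χ s = χ t
  S_eq : ∀ s t, R s t → S s = S t
  χ_off : ∀ s, s ∉ w.x → χ s = 0
  S_off : ∀ s, s ∉ w.x → S s = ∅

namespace RW

/-- `s` lies in a region adjacent to the arc `a` -/
def M (X : RW) (a : ℕ) (s : Sy) : Prop := X.R s (en a false) ∨ X.R s (en a true)

theorem M_congr {X : RW} {a : ℕ} {s t : Sy} (h : X.R s t) : X.M a s ↔ X.M a t := by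
  unfold M
  constructor
  · rintro (h' | h')
    · exact Or.inl (X.trans' _ _ _ (X.symm' _ _ h) h')
    · exact Or.inr (X.trans' _ _ _ (X.symm' _ _ h) h')
  · rintro (h' | h')
    · exact Or.inl (X.trans' _ _ _ h h')
    · exact Or.inr (X.trans' _ _ _ h h')

/-- Euler characteristic of the region obtained by deleting the arc `a` -/
noncomputable def χM (X : RW) (a : ℕ) : ℤ :=
  if X.R (en a false) (en a true) then X.χ (en a false) - 1
  else X.χ (en a false) + X.χ (en a true) - 1

/-- deletion of an arc: the regions on its two sides are merged -/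
noncomputable def dl (X : RW) (a : ℕ) : RW where
  w := X.w.dl a
  R s t := s ∈ (X.w.dl a).x ∧ t ∈ (X.w.dl a).x ∧ (X.R s t ∨ (X.M a s ∧ X.M a t))
  χ s := if s ∈ (X.w.dl a).x then (if X.M a s then X.χM a else X.χ s) else 0
  S s := if s ∈ (X.w.dl a).x then
    (if X.M a s then X.S (en a false) ∪ X.S (en a true) else X.S s) else ∅
  rfl' := by
    intro s hs
    exact ⟨hs, hs, Or.inl (X.rfl' s (List.mem_of_mem_filter hs))⟩
  symm' := by
    rintro s t ⟨h1, h2, h3⟩
    exact ⟨h2, h1, h3.imp (X.symm' _ _) (fun h => ⟨h.2, h.1⟩)⟩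
  trans' := by
    rintro s t u ⟨h1, h2, h3⟩ ⟨_, h5, h6⟩
    refine ⟨h1, h5, ?_⟩
    rcases h3 with h3 | h3 <;> rcases h6 with h6 | h6
    · exact Or.inl (X.trans' _ _ _ h3 h6)
    · exact Or.inr ⟨(M_congr h3).2 h6.1, h6.2⟩
    · exact Or.inr ⟨h3.1, (M_congr h6).1 h3.2⟩
    · exact Or.inr ⟨h3.1, h6.2⟩
  mem' := fun s t h => h.1
  χ_eq := by
    rintro s t ⟨h1, h2, h3⟩
    rw [if_pos h1, if_pos h2]
    rcases h3 with h3 | h3
    · rw [X.χ_eq _ _ h3]
      by_cases h : X.M a s
      · rw [if_pos h, if_pos ((M_congr h3).1 h)]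
      · rw [if_neg h, if_neg (fun h' => h ((M_congr h3).2 h'))]
    · rw [if_pos h3.1, if_pos h3.2]
  S_eq := by
    rintro s t ⟨h1, h2, h3⟩
    rw [if_pos h1, if_pos h2]
    rcases h3 with h3 | h3
    · rw [X.S_eq _ _ h3]
      by_cases h : X.M a s
      · rw [if_pos h, if_pos ((M_congr h3).1 h)]
      · rw [if_neg h, if_neg (fun h' => h ((M_congr h3).2 h'))]
    · rw [if_pos h3.1, if_pos h3.2]
  χ_off := fun s hs => if_neg hs
  S_off := fun s hs => if_neg hs

/-- renaming of the arcs -/
def rn (π : Perm ℕ) (X : RW) : RW where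
  w := X.w.rn π
  R s t := X.R ((rnS π).symm s) ((rnS π).symm t)
  χ s := X.χ ((rnS π).symm s)
  S s := X.S ((rnS π).symm s)
  rfl' := by
    intro s hs
    refine X.rfl' _ ?_
    obtain ⟨t, ht, rfl⟩ := List.mem_map.1 hs
    rwa [Equiv.symm_apply_apply]
  symm' := fun s t h => X.symm' _ _ h
  trans' := fun s t u h h' => X.trans' _ _ _ h h'
  mem' := by
    intro s t h
    exact List.mem_map.2 ⟨_, X.mem' _ _ h, Equiv.apply_symm_apply _ _⟩
  χ_eq := fun s t h => X.χ_eq _ _ h
  S_eq := fun s t h => X.S_eq _ _ h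
  χ_off := by
    intro s hs
    refine X.χ_off _ (fun h => hs ?_)
    exact List.mem_map.2 ⟨_, h, Equiv.apply_symm_apply _ _⟩
  S_off := by
    intro s hs
    refine X.S_off _ (fun h => hs ?_)
    exact List.mem_map.2 ⟨_, h, Equiv.apply_symm_apply _ _⟩

end RW

/-- the class (region) of a symbol as a finite set of symbols -/
noncomputable def RW.cls (X : RW) (s : Sy) : Finset Sy := X.w.x.toFinset.filter (fun t => X.R s t)

/-- The region word is geometrically realizable: regions are unions of boundary cycles of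
genus `≥ 0`, punctures lie in one region only, and the word ends with a marker. -/
def RW.Good (θ : Perm Sy) (X : RW) : Prop :=
  (∀ s ∈ X.w.x, X.R s (fp θ X.w.x s)) ∧
  (∀ s ∈ X.w.x, ∃ h : ℕ, (ncy (fp θ X.w.x) (X.cls s) : ℤ) + X.χ s = 2 - 2 * h) ∧
  (∀ s ∈ X.w.x, ∀ t ∈ X.w.x, (X.S s ∩ X.S t).Nonempty → X.R s t) ∧
  ∃ (l : List Sy) (n : ℕ), X.w.x = l ++ [mr n]

/-- the arc `a` is a loop of the dual graph: both sides in the same region or both sides in
punctured regions -/
def RW.Loop (X : RW) (a : ℕ) : Prop :=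
  X.R (en a false) (en a true) ∨ (X.S (en a false)).Nonempty ∧ (X.S (en a true)).Nonempty

/-- representatives of the regions: the first symbols -/
noncomputable def RW.reps (X : RW) : Finset Sy :=
  X.w.x.toFinset.filter (fun s => ∀ t, X.R s t → X.w.x.idxOf s ≤ X.w.x.idxOf t)

/-- rank of the first homology of the surface cut along the arcs, with all punctures
identified -/
noncomputable def RW.rk (X : RW) : ℤ :=
  ∑ s ∈ X.reps, (1 - X.χ s) + ∑ s ∈ X.reps.filter (fun s => (X.S s).Nonempty), (((X.S s).card : ℤ) - 1)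

/-- no region is an unpunctured disc with at most two sides -/
def RW.ND (X : RW) : Prop := ∀ s ∈ X.w.x, X.χ s = 1 → X.S s = ∅ → 3 ≤ (X.cls s).card

end Pool.Agent.TH547.Arc
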