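import Pool.Agent.TH286.J834
set_option autoImplicit false

/-! The system of region words. -/
namespace Pool.Agent.TH547.Arc

open Finset Equiv

/-- the system of region words -/
noncomputable def RWS : Sys where
  C := RW
  ord X := X.w.ord
  dl := RW.dl
  rn := fun π X => X.rn π
  nodup X := PW.ord_nodup X.w
  ord_dl X a := PW.ord_dl X.w a
  dl_not_mem := Pool.Agent.TH286.J834.dl_not_mem
  dl_comm := Pool.Agent.TH286.J834.dl_comm
  rn_one := Pool.Agent.TH286.J834.rn_one
  rn_mul := Pool.Agent.TH286.J834.rn_mul
  ord_rn π X := PW.ord_rn π X.w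
  dl_rn := Pool.Agent.TH286.J834.dl_rn
  rn_congr := Pool.Agent.TH286.J834.rn_congr

/-- Region words `X` obtained from the frozen region word `E` by inserting arcs which are loops:
all sides of a new arc lie in one region or in two punctured regions. -/
def OvR (θ : Perm Sy) (E : RW) (X : RW) : Prop :=
  RW.Good θ X ∧ RWS.res (RWS.nm E) X = E ∧ ∀ a ∈ RWS.nm X \ RWS.nm E, X.Loop a

/-- conditions on the face structure `θ` for a frozen region word -/
structure EnvR (θ : Perm Sy) (E : RW) : Prop where
  flip : ∀ a, a ∉ E.w.ord → ∀ e, θ (en a e) = en a (!e)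
  pres : ∀ s ∈ E.w.x, θ s ∈ E.w.x
  fixm : ∀ n, mr n ∉ E.w.x → θ (mr n) = mr n
  good : RW.Good θ E

end Pool.Agent.TH547.Arc

namespace Pool.Agent.TH547.Arc

open Finset Equiv

/-- number of punctures minus number of punctured regions -/
noncomputable def RW.df (X : RW) : ℕ := ∑ s ∈ X.reps, ((X.S s).card - 1)


end Pool.Agent.TH547.Arc
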