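import Pool.Agent.TH547.Arc.NH
import Pool.Agent.TH547.Arc.RegDef
set_option autoImplicit false

/-! Paired words with a region structure. -/
namespace Pool.Agent.TH547.Arc

open Finset Equiv Classical

/-- restriction: delete all arcs whose names are not in `N` -/
noncomputable def Sys.res (S : Sys) (N : Finset ℕ) (X : S.C) : S.C :=
  ((S.nm X \ N).sort (· ≤ ·)).foldl S.dl X

end Pool.Agent.TH547.Arc
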