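import Pool.Agent.TH547.Arc.Piece
import Pool.Agent.TH547.Arc.Model
import Pool.Agent.TH745.J984
set_option autoImplicit false

/-! The spectral sequence of the arc complex in terms of the system of region words. -/
namespace Pool.Agent.TH547.Arc

open Finset Equiv

/-- `X` is an arc family of `F^s_{g,δ}` (possibly empty), up to the pure mapping class group and
up to the names of the arcs: the regions are realizable, there is no unpunctured disc region with
at most two sides (arcs are essential, not boundary parallel and pairwise not isotopic), and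
deletion of all arcs gives the surface. -/
def IsFam (g : ℕ) (δ : List ℕ) (s : ℕ) (X : RW) : Prop :=
  RW.Good (thF δ) X ∧ RWS.res ∅ X = surf g δ s ∧ RW.ND X

/-- `X` represents a cell of `Arc(F)`: a nonempty arc family -/
def IsCell (g : ℕ) (δ : List ℕ) (s : ℕ) (X : RW) : Prop := IsFam g δ s X ∧ X.w.ord ≠ []

/-- the group `E^0_{u,v}` of the spectral sequence: chains of cells `X` with
`v = - rank H_1` and dimension `(number of arcs) - 1 = u + v`; the cells are the classes of
region words under renaming of the arcs -/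
noncomputable def E0 (g : ℕ) (δ : List ℕ) (s : ℕ) (u v : ℤ) :
    Submodule ℤ (RWS.Q ∅ →₀ ℤ) :=
  Finsupp.supported ℤ ℤ {q | ∃ X : RW, RWS.cl ∅ X = q ∧ IsCell g δ s X ∧
    v = -X.rk ∧ (X.w.ord.length : ℤ) - 1 = u + v}

open Classical in
/-- the boundary of a cell restricted to the faces of the second kind (for which the rank of
`H_1` changes by one), the sign of the face obtained by deletion of the `k`-th arc
(`k = 0, 1, ...`) being `(-1) ^ k`; the empty family is not a face -/
noncomputable def d20 (X : RW) : RWS.Q ∅ →₀ ℤ :=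
  ∑ a ∈ (RWS.nm X).filter (fun a => (X.dl a).w.ord ≠ [] ∧ (X.dl a).rk = X.rk + 1),
    Finsupp.single (RWS.cl ∅ (X.dl a)) ((-1) ^ (X.w.ord.idxOf a))

theorem d20_rn (π : Perm ℕ) (X : RW) : d20 (X.rn π) = d20 X := by
  classical
  unfold d20
  symm
  refine Finset.sum_bij (fun a _ => π a) ?_ ?_ ?_ ?_
  · intro a ha
    rw [Finset.mem_filter] at ha ⊢
    refine ⟨(Sys.mem_nm_rn (S := RWS) π X a).2 ha.1, ?_, ?_⟩
    · have h : (X.rn π).dl (π a) = (X.dl a).rn π := RWS.dl_rn π X a
      rw [h]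
      intro h'
      apply ha.2.1
      have h2 : ((X.dl a).rn π).w.ord = (X.dl a).w.ord.map π := RWS.ord_rn π (X.dl a)
      rw [h2] at h'
      exact List.map_eq_nil_iff.1 h'
    · have h : (X.rn π).dl (π a) = (X.dl a).rn π := RWS.dl_rn π X a
      rw [h, Pool.Agent.TH745.J984.RW.rk_rn, Pool.Agent.TH745.J984.RW.rk_rn]
      exact ha.2.2
  · intro a _ b _ hab
    exact π.injective hab
  · intro b hb
    refine ⟨π⁻¹ b, ?_, by simp⟩
    rw [Finset.mem_filter] at hb ⊢
    have hb' : b = π (π⁻¹ b) := by simp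
    have h : (X.rn π).dl b = (X.dl (π⁻¹ b)).rn π := by
      conv_lhs => rw [hb']
      exact RWS.dl_rn π X (π⁻¹ b)
    rw [h] at hb
    refine ⟨?_, ?_, ?_⟩
    · rw [← Sys.mem_nm_rn (S := RWS) π X]
      have := hb.1
      rwa [hb'] at this
    · intro h'
      apply hb.2.1
      have h2 : ((X.dl (π⁻¹ b)).rn π).w.ord = (X.dl (π⁻¹ b)).w.ord.map π :=
        RWS.ord_rn π (X.dl (π⁻¹ b))
      rw [h2, h']
      rfl
    · have := hb.2.2
      rwa [Pool.Agent.TH745.J984.RW.rk_rn, Pool.Agent.TH745.J984.RW.rk_rn] at this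
  · intro a _
    have h : (X.rn π).dl (π a) = (X.dl a).rn π := RWS.dl_rn π X a
    have h1 : RWS.cl ∅ ((X.rn π).dl (π a)) = RWS.cl ∅ (X.dl a) := by
      rw [h]
      exact Sys.cl_rn (S := RWS) (F := ∅) (π := π) (by simp) (X.dl a)
    have h2 : ((-1 : ℤ)) ^ ((X.rn π).w.ord.idxOf (π a)) = (-1) ^ (X.w.ord.idxOf a) :=
      Sys.sg_rn (S := RWS) π X a
    rw [h1, h2]

/-- the differential `∂²` of the spectral sequence -/
noncomputable def d2 : (RWS.Q ∅ →₀ ℤ) →ₗ[ℤ] (RWS.Q ∅ →₀ ℤ) :=
  Finsupp.lsum ℤ fun q => (LinearMap.toSpanSingleton ℤ _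
    (Quotient.lift (s := RWS.st ∅) d20 (by
      rintro X Y ⟨π, _, rfl⟩
      exact (d20_rn π X).symm) q))

/-- The group `E^1_{u,v}`: the homology of `∂² : E^0_{u,v+1} → E^0_{u,v} → E^0_{u,v-1}`. -/
abbrev E1 (g : ℕ) (δ : List ℕ) (s : ℕ) (u v : ℤ) : Type :=
  ↥(E0 g δ s u v ⊓ LinearMap.ker d2) ⧸
    ((E0 g δ s u (v + 1)).map d2).comap (E0 g δ s u v ⊓ LinearMap.ker d2).subtype

end Pool.Agent.TH547.Arc
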