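import Mathlib
set_option autoImplicit false

/-! Abstract systems of labelled cells with deletion of labelled arcs, and the chain
complexes of isomorphism classes of cells. -/
namespace Pool.Agent.TH547.Arc

open Finset

/-- A system of cells.  A cell `X` has a list `ord X` of (names of) arcs, arcs can be deleted and
renamed. -/
structure Sys where
  /-- labelled cells -/
  C : Type
  /-- the arcs of a cell, in their order -/
  ord : C → List ℕ
  /-- deletion of an arc -/
  dl : C → ℕ → C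
  /-- renaming of arcs -/
  rn : Equiv.Perm ℕ → C → C
  nodup : ∀ X, (ord X).Nodup
  ord_dl : ∀ X a, ord (dl X a) = (ord X).erase a
  dl_not_mem : ∀ X a, a ∉ ord X → dl X a = X
  dl_comm : ∀ X a b, dl (dl X a) b = dl (dl X b) a
  rn_one : ∀ X, rn 1 X = X
  rn_mul : ∀ π σ X, rn (π * σ) X = rn π (rn σ X)
  ord_rn : ∀ π X, ord (rn π X) = (ord X).map π
  dl_rn : ∀ π X a, dl (rn π X) (π a) = rn π (dl X a)
  rn_congr : ∀ π σ X, (∀ a ∈ ord X, π a = σ a) → rn π X = rn σ X

namespace Sys
variable (S : Sys)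

/-- the finite set of names of arcs of a cell -/
def nm (X : S.C) : Finset ℕ := (S.ord X).toFinset

/-- sign of an arc -/
def sg (X : S.C) (a : ℕ) : ℤ := (-1) ^ ((S.ord X).idxOf a)

/-- cells up to renaming of the arcs not in `F` -/
def st (F : Finset ℕ) : Setoid S.C where
  r X Y := ∃ π : Equiv.Perm ℕ, (∀ a ∈ F, π a = a) ∧ Y = S.rn π X
  iseqv :=
    { refl := fun X => ⟨1, fun _ _ => rfl, (S.rn_one X).symm⟩
      symm := by
        rintro X Y ⟨π, h, rfl⟩
        refine ⟨π⁻¹, fun a ha => ?_, ?_⟩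
        · rw [Equiv.Perm.inv_eq_iff_eq]; exact (h a ha).symm
        · rw [← S.rn_mul, inv_mul_cancel, S.rn_one]
      trans := by
        rintro X Y Z ⟨π, h, rfl⟩ ⟨σ, h', rfl⟩
        refine ⟨σ * π, fun a ha => ?_, ?_⟩
        · rw [Equiv.Perm.mul_apply, h a ha, h' a ha]
        · rw [S.rn_mul] }

/-- isomorphism classes -/
abbrev Q (F : Finset ℕ) : Type := Quotient (S.st F)

/-- the class of a cell -/
def cl (F : Finset ℕ) (X : S.C) : S.Q F := Quotient.mk (S.st F) X

variable {S}

theorem cl_rn {F : Finset ℕ} {π : Equiv.Perm ℕ} (h : ∀ a ∈ F, π a = a) (X : S.C) :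
    S.cl F (S.rn π X) = S.cl F X := by
  symm
  exact Quotient.sound (s := S.st F) ⟨π, h, rfl⟩

theorem cl_eq {F : Finset ℕ} {X Y : S.C} :
    S.cl F X = S.cl F Y ↔ ∃ π : Equiv.Perm ℕ, (∀ a ∈ F, π a = a) ∧ Y = S.rn π X := by
  constructor
  · intro h
    exact Quotient.exact (s := S.st F) h
  · rintro ⟨π, h, rfl⟩
    exact (cl_rn h X).symm

theorem mem_nm {X : S.C} {a : ℕ} : a ∈ S.nm X ↔ a ∈ S.ord X := by simp [nm]

theorem nm_dl (X : S.C) (a : ℕ) : S.nm (S.dl X a) = (S.nm X).erase a := by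
  ext b
  rw [mem_nm, S.ord_dl, Finset.mem_erase, mem_nm, (S.nodup X).mem_erase_iff]

theorem nm_rn (π : Equiv.Perm ℕ) (X : S.C) : S.nm (S.rn π X) = (S.nm X).map π.toEmbedding := by
  ext b
  rw [mem_nm, S.ord_rn, List.mem_map, Finset.mem_map]
  simp only [mem_nm]
  rfl

theorem mem_nm_rn (π : Equiv.Perm ℕ) (X : S.C) (a : ℕ) : π a ∈ S.nm (S.rn π X) ↔ a ∈ S.nm X := by
  rw [nm_rn]
  simp

theorem sg_rn (π : Equiv.Perm ℕ) (X : S.C) (a : ℕ) : S.sg (S.rn π X) (π a) = S.sg X a := by
  unfold sg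
  rw [S.ord_rn]
  congr 1
  generalize S.ord X = l
  induction l with
  | nil => simp
  | cons b l ih =>
    rw [List.map_cons]
    by_cases h : b = a
    · subst h; rw [List.idxOf_cons_self, List.idxOf_cons_self]
    · have : π b ≠ π a := fun h' => h (π.injective h')
      rw [List.idxOf_cons_ne _ this, List.idxOf_cons_ne _ h, ih]

theorem sg_sq (X : S.C) (a : ℕ) : S.sg X a * S.sg X a = 1 := by
  unfold sg
  rw [← pow_add, ← two_mul, pow_mul]
  norm_num

/-- signs of deletions anticommute -/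
theorem sg_anti_list {l : List ℕ} (hl : l.Nodup) {a b : ℕ} (ha : a ∈ l) (hb : b ∈ l)
    (hab : a ≠ b) :
    ((-1 : ℤ)) ^ (l.idxOf a) * (-1) ^ ((l.erase a).idxOf b) =
      -((-1) ^ (l.idxOf b) * (-1) ^ ((l.erase b).idxOf a)) := by
  induction l with
  | nil => simp at ha
  | cons c l ih =>
    have hcl : c ∉ l := (List.nodup_cons.1 hl).1
    have hl' := (List.nodup_cons.1 hl).2
    by_cases hca : c = a
    · subst hca
      have hcb : c ≠ b := hab
      have hb' : b ∈ l := by
        rcases List.mem_cons.1 hb with h | h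
        · exact absurd h.symm hab
        · exact h
      rw [List.erase_cons_head, List.idxOf_cons_self, List.idxOf_cons_ne _ hcb,
        List.erase_cons_tail (by simpa using hcb), List.idxOf_cons_self]
      rw [pow_succ]; ring
    · by_cases hcb : c = b
      · subst hcb
        rw [List.erase_cons_head, List.idxOf_cons_self, List.idxOf_cons_ne _ hca,
          List.erase_cons_tail (by simpa using hca), List.idxOf_cons_self]
        rw [pow_succ]; ring
      · have ha' : a ∈ l := by
          rcases List.mem_cons.1 ha with h | h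
          · exact absurd h.symm hca
          · exact h
        have hb' : b ∈ l := by
          rcases List.mem_cons.1 hb with h | h
          · exact absurd h.symm hcb
          · exact h
        have := ih hl' ha' hb'
        rw [List.erase_cons_tail (by simpa using hca), List.erase_cons_tail (by simpa using hcb),
          List.idxOf_cons_ne _ hca, List.idxOf_cons_ne _ hcb, List.idxOf_cons_ne _ hca,
          List.idxOf_cons_ne _ hcb]
        simp only [pow_succ]
        linear_combination this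

theorem sg_anti (X : S.C) {a b : ℕ} (ha : a ∈ S.nm X) (hb : b ∈ S.nm X) (hab : a ≠ b) :
    S.sg X a * S.sg (S.dl X a) b = -(S.sg X b * S.sg (S.dl X b) a) := by
  unfold sg
  rw [S.ord_dl, S.ord_dl]
  exact sg_anti_list (S.nodup X) (mem_nm.1 ha) (mem_nm.1 hb) hab

variable (S)

/-- boundary of one labelled cell -/
noncomputable def d0 (F : Finset ℕ) (X : S.C) : S.Q F →₀ ℤ :=
  ∑ a ∈ S.nm X \ F, Finsupp.single (S.cl F (S.dl X a)) (S.sg X a)

variable {S}

theorem d0_rn {F : Finset ℕ} {π : Equiv.Perm ℕ} (h : ∀ a ∈ F, π a = a) (X : S.C) :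
    S.d0 F (S.rn π X) = S.d0 F X := by
  unfold d0
  symm
  refine Finset.sum_bij (fun a _ => π a) ?_ ?_ ?_ ?_
  · intro a ha
    rw [Finset.mem_sdiff] at ha ⊢
    refine ⟨(mem_nm_rn π X a).2 ha.1, fun hF => ha.2 ?_⟩
    have := h _ hF
    rw [π.injective this] at hF
    exact hF
  · intro a _ b _ hab
    exact π.injective hab
  · intro b hb
    rw [Finset.mem_sdiff] at hb
    refine ⟨π⁻¹ b, ?_, by simp⟩
    rw [Finset.mem_sdiff]
    refine ⟨?_, fun hF => hb.2 ?_⟩
    · rw [← mem_nm_rn π]; simpa using hb.1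
    · have := h _ hF
      simp only [Equiv.Perm.coe_inv, Equiv.apply_symm_apply] at this
      simp only [Equiv.Perm.coe_inv] at hF
      rw [this]; exact hF
  · intro a _
    rw [S.dl_rn, cl_rn h, sg_rn]

variable (S)

/-- the boundary map of the complex of all classes -/
noncomputable def d (F : Finset ℕ) : (S.Q F →₀ ℤ) →ₗ[ℤ] (S.Q F →₀ ℤ) :=
  Finsupp.lsum ℤ fun q => (LinearMap.toSpanSingleton ℤ _
    (Quotient.lift (s := S.st F) (S.d0 F) (by
      rintro X Y ⟨π, h, rfl⟩
      exact (d0_rn h X).symm) q))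

variable {S}

theorem d_single (F : Finset ℕ) (X : S.C) (n : ℤ) :
    S.d F (Finsupp.single (S.cl F X) n) = n • S.d0 F X := by
  unfold d
  rw [Finsupp.lsum_single]
  rfl

theorem d_d0 (F : Finset ℕ) (X : S.C) : S.d F (S.d0 F X) = 0 := by
  unfold d0
  rw [map_sum]
  simp only [d_single, d0, nm_dl, Finset.smul_sum]
  rw [Finset.sum_sigma']
  refine Finset.sum_involution (fun p _ => ⟨p.2, p.1⟩) ?_ ?_ ?_ ?_
  · rintro ⟨a, b⟩ h
    simp only [Finset.mem_sigma, Finset.mem_sdiff, Finset.mem_erase] at h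
    obtain ⟨⟨ha, haF⟩, ⟨hba, hb⟩, hbF⟩ := h
    dsimp only
    rw [S.dl_comm X b a, Finsupp.smul_single, Finsupp.smul_single, ← Finsupp.single_add,
      smul_eq_mul, smul_eq_mul, sg_anti X ha hb (Ne.symm hba)]
    simp
  · rintro ⟨a, b⟩ h _ heq
    simp only [Finset.mem_sigma, Finset.mem_sdiff, Finset.mem_erase] at h
    have : b = a := by simpa using congrArg Sigma.fst heq
    exact h.2.1.1 this
  · rintro ⟨a, b⟩ h
    simp only [Finset.mem_sigma, Finset.mem_sdiff, Finset.mem_erase] at h ⊢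
    exact ⟨⟨h.2.1.2, h.2.2⟩, ⟨Ne.symm h.2.1.1, h.1.1⟩, h.1.2⟩
  · rintro ⟨a, b⟩ _
    rfl

theorem cl_surj {F : Finset ℕ} (q : S.Q F) : ∃ X, S.cl F X = q :=
  Quotient.exists_rep q

theorem d_d (F : Finset ℕ) (z : S.Q F →₀ ℤ) : S.d F (S.d F z) = 0 := by
  induction z using Finsupp.induction_linear with
  | zero => simp
  | add x y hx hy => rw [map_add, map_add, hx, hy, add_zero]
  | single q n =>
    obtain ⟨X, rfl⟩ := cl_surj q
    rw [d_single, map_smul, d_d0, smul_zero]

end Sys

end Pool.Agent.TH547.Arc
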