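import Pool.Agent.TH547.Arc.Model2
import Pool.Agent.TH547.Arc.Col
set_option autoImplicit false

/-! Comparison of the two descriptions of the spectral sequence. -/
namespace Pool.Agent.TH547.Arc

open Finset Equiv

/-- classes of region words -/
noncomputable def toQ : Cell → RWS.Q ∅ := Quot.lift (fun X => RWS.cl ∅ X) (by
  rintro X Y ⟨π, rfl⟩
  exact (Sys.cl_rn (S := RWS) (F := ∅) (π := π) (by simp) X).symm)

/-- classes of region words -/
noncomputable def ofQ : RWS.Q ∅ → Cell := Quotient.lift (s := RWS.st ∅) RW.cell (by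
  rintro X Y ⟨π, _, rfl⟩
  exact (RW.cell_rn π X).symm)

/-- the two kinds of classes agree -/
noncomputable def eQ : Cell ≃ RWS.Q ∅ where
  toFun := toQ
  invFun := ofQ
  left_inv := by intro q; induction q using Quot.ind; rfl
  right_inv := by
    intro q
    obtain ⟨X, rfl⟩ := Sys.cl_surj (S := RWS) q
    rfl

theorem eQ_cell (X : RW) : eQ X.cell = RWS.cl ∅ X := rfl
theorem eQ_symm_cl (X : RW) : eQ.symm (RWS.cl ∅ X) = X.cell := rfl

/-- the isomorphism of chain groups -/
noncomputable def mQ : (Cell →₀ ℤ) ≃+ (RWS.Q ∅ →₀ ℤ) := Finsupp.domCongr eQ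

theorem mQ_single (q : Cell) (n : ℤ) : mQ (Finsupp.single q n) = Finsupp.single (eQ q) n := by
  unfold mQ
  rw [Finsupp.domCongr_apply, Finsupp.equivMapDomain_single]

theorem mQ_apply (z : Cell →₀ ℤ) (q : RWS.Q ∅) : mQ z q = z (eQ.symm q) := by
  unfold mQ
  rw [Finsupp.domCongr_apply, Finsupp.equivMapDomain_apply]

theorem mQ_bd (X : RW) : mQ X.bd2 = d20 X := by
  classical
  unfold RW.bd2 d20
  rw [map_sum]
  refine Finset.sum_congr rfl fun a _ => ?_
  rw [mQ_single, eQ_cell]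

theorem bd2_zero : bd2 0 = 0 := by unfold bd2; rw [Finsupp.sum_zero_index]

theorem bd2_add (x y : Cell →₀ ℤ) : bd2 (x + y) = bd2 x + bd2 y := by
  unfold bd2
  rw [Finsupp.sum_add_index']
  · intro q; rw [zero_smul]
  · intro q m n; rw [add_smul]

theorem bd2_single (X : RW) (n : ℤ) : bd2 (Finsupp.single X.cell n) = n • X.bd2 := by
  unfold bd2
  rw [Finsupp.sum_single_index]
  · rfl
  · rw [zero_smul]

theorem mQ_bd2 (z : Cell →₀ ℤ) : mQ (bd2 z) = d2 (mQ z) := by
  induction z using Finsupp.induction_linear with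
  | zero => rw [bd2_zero, map_zero, map_zero]
  | add x y hx hy => rw [bd2_add, map_add, map_add, map_add, hx, hy]
  | single q n =>
    induction q using Quot.ind with
    | mk X =>
      have h : (Quot.mk _ X : Cell) = X.cell := rfl
      rw [h, bd2_single, map_zsmul, mQ_bd, mQ_single, eQ_cell, d2_single]

theorem isArcFamily_iff {g : ℕ} {δ : List ℕ} {s : ℕ} {X : RW} :
    IsArcFamily g δ s X ↔ IsCell g δ s X := by
  have h0 : ((RWS.nm X \ ∅).sort (· ≤ ·)).foldl RWS.dl X = X.w.ord.foldl RWS.dl X := by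
    refine Pool.Agent.TH286.J835.Sys.foldl_eq (S := RWS) fun a ha => ?_
    rw [Finset.mem_sort, Finset.sdiff_empty]
    exact ⟨fun _ => (Sys.mem_nm (S := RWS)).1 ha, fun _ => ha⟩
  have h : RWS.res ∅ X = X.w.ord.foldl RW.dl X := h0
  unfold IsArcFamily IsCell IsFam
  rw [h]
  tauto

theorem inE0_iff {g : ℕ} {δ : List ℕ} {s : ℕ} {u v : ℤ} {z : Cell →₀ ℤ} :
    InE0 g δ s u v z ↔ mQ z ∈ E0 g δ s u v := by
  unfold InE0 E0
  rw [Finsupp.mem_supported]
  constructor
  · intro h q hq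
    have h1 : mQ z q ≠ 0 := Finsupp.mem_support_iff.1 (Finset.mem_coe.1 hq)
    rw [mQ_apply] at h1
    obtain ⟨X, h2, h3, h4, h5⟩ := h _ (Finsupp.mem_support_iff.2 h1)
    refine ⟨X, ?_, isArcFamily_iff.1 h3, h4, h5⟩
    rw [← eQ_cell, h2, Equiv.apply_symm_apply]
  · intro h q hq
    have h1 : mQ z (eQ q) ≠ 0 := by
      rw [mQ_apply, Equiv.symm_apply_apply]
      exact Finsupp.mem_support_iff.1 hq
    obtain ⟨X, h2, h3, h4, h5⟩ := h (Finset.mem_coe.2 (Finsupp.mem_support_iff.2 h1))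
    refine ⟨X, ?_, isArcFamily_iff.2 h3, h4, h5⟩
    apply eQ.injective
    rw [eQ_cell, h2]

end Pool.Agent.TH547.Arc
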