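import Mathlib
set_option autoImplicit false

/-! Paired words: lists of symbols, in which every arc has two ends (definitions). -/
namespace Pool.Agent.TH547.Arc

open Finset

/-- symbols: markers `mr n` and ends `en a e` of arcs -/
inductive Sy : Type
  /-- a marker -/
  | mr (n : ℕ) : Sy
  /-- an end of an arc -/
  | en (a : ℕ) (e : Bool) : Sy
  deriving DecidableEq

export Sy (mr en)

/-- renaming of the arcs, on symbols -/
def rnF (π : ℕ → ℕ) : Sy → Sy
  | mr n => mr n
  | en a e => en (π a) e

/-- renaming of the arcs -/
def rnS (π : Equiv.Perm ℕ) : Equiv.Perm Sy where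
  toFun := rnF π
  invFun := rnF π.symm
  left_inv := by intro s; cases s <;> simp [rnF]
  right_inv := by intro s; cases s <;> simp [rnF]

@[simp] theorem rnS_mr (π : Equiv.Perm ℕ) (n : ℕ) : rnS π (mr n) = mr n := rfl
@[simp] theorem rnS_en (π : Equiv.Perm ℕ) (a : ℕ) (e : Bool) : rnS π (en a e) = en (π a) e := rfl

/-- the name of the arc of which `s` is the first end -/
def fname : Sy → Option ℕ
  | en a false => some a
  | _ => none

/-- test for the arc `a` not being the arc of `s` -/
def offA (a : ℕ) (s : Sy) : Bool := decide (s ≠ en a false) && decide (s ≠ en a true)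

theorem offA_iff (a : ℕ) (s : Sy) : offA a s = true ↔ s ≠ en a false ∧ s ≠ en a true := by
  simp [offA]

@[simp] theorem offA_mr (a n : ℕ) : offA a (mr n) = true := by simp [offA]
theorem offA_en (a b : ℕ) (e : Bool) : offA a (en b e) = true ↔ b ≠ a := by
  rw [offA_iff]; cases e <;> simp [eq_comm]

/-- A paired word. -/
@[ext] structure PW where
  /-- the underlying list -/
  x : List Sy
  nd : x.Nodup
  pair : ∀ a e, en a e ∈ x → [en a false, en a true].Sublist x

namespace PW

/-- the arcs in the order of their first ends -/
def ord (X : PW) : List ℕ := X.x.filterMap fname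

/-- deletion of an arc -/
def dl (X : PW) (a : ℕ) : PW where
  x := X.x.filter (offA a)
  nd := X.nd.filter _
  pair := by
    intro b e hb
    rw [List.mem_filter, offA_en] at hb
    have h := (X.pair b e hb.1).filter (offA a)
    have h1 : offA a (en b false) = true := (offA_en a b false).2 hb.2
    have h2 : offA a (en b true) = true := (offA_en a b true).2 hb.2
    rw [List.filter_cons_of_pos h1, List.filter_cons_of_pos h2, List.filter_nil] at h
    exact h

/-- renaming of arcs -/
def rn (π : Equiv.Perm ℕ) (X : PW) : PW where
  x := X.x.map (rnS π)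
  nd := X.nd.map (rnS π).injective
  pair := by
    intro b e hb
    rw [List.mem_map] at hb
    obtain ⟨s, hs, h⟩ := hb
    rcases s with n | ⟨c, e'⟩
    · simp at h
    · have : π c = b ∧ e' = e := by simpa using h
      obtain ⟨rfl, rfl⟩ := this
      have := (X.pair c e' hs).map (rnS π)
      simpa using this

end PW

/-- the face permutation: its cycles on `x` are the boundary cycles -/
noncomputable def fp (θ : Equiv.Perm Sy) (x : List Sy) : Equiv.Perm Sy := x.formPerm * θ

open Classical in
/-- number of cycles of `σ` on the invariant finite set `A` -/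
noncomputable def ncy {α : Type} (σ : Equiv.Perm α) (A : Finset α) : ℕ :=
  (A.image (fun s => A.filter (fun t => σ.SameCycle s t))).card

end Pool.Agent.TH547.Arc
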