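import Pool.Agent.TH547.Arc.Ex
import Pool.Agent.TH547.Arc.WordDef
set_option autoImplicit false

/-! Paired words: lists of symbols, in which every arc has two ends. -/
namespace Pool.Agent.TH547.Arc

open Finset

namespace PW

theorem mem_ord {X : PW} {a : ℕ} : a ∈ X.ord ↔ en a false ∈ X.x := by
  unfold ord
  rw [List.mem_filterMap]
  constructor
  · rintro ⟨s, hs, h⟩
    rcases s with n | ⟨b, _ | _⟩
    · simp [fname] at h
    · simp only [fname, Option.some.injEq] at h; subst h; exact hs
    · simp [fname] at h
  · intro h; exact ⟨_, h, rfl⟩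

theorem mem_ord' {X : PW} {a : ℕ} (e : Bool) : a ∈ X.ord ↔ en a e ∈ X.x := by
  rw [mem_ord]
  constructor
  · intro h
    have := (X.pair a false h).subset
    cases e
    · exact h
    · exact this (by simp)
  · intro h
    exact (X.pair a e h).subset (by simp)

theorem fname_eq_some {s : Sy} {a : ℕ} : fname s = some a ↔ s = en a false := by
  rcases s with n | ⟨b, _ | _⟩ <;> simp [fname]

theorem ord_nodup (X : PW) : X.ord.Nodup := by
  unfold ord
  refine List.Nodup.filterMap ?_ X.nd
  intro s t a hs ht
  rw [Option.mem_def, fname_eq_some] at hs ht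
  rw [hs, ht]

theorem ord_dl (X : PW) (a : ℕ) : (X.dl a).ord = X.ord.erase a := by
  rw [List.Nodup.erase_eq_filter X.ord_nodup]
  unfold ord dl
  simp only
  induction X.x with
  | nil => rfl
  | cons s l ih =>
    rcases s with n | ⟨b, _ | _⟩
    · have h1 : fname (mr n) = none := rfl
      rw [List.filter_cons_of_pos (by simp [offA]), List.filterMap_cons_none h1,
        List.filterMap_cons_none h1, ih]
    · have h1 : fname (en b false) = some b := rfl
      by_cases h : b = a
      · subst h
        rw [List.filter_cons_of_neg (by simp [offA])]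
        rw [List.filterMap_cons_some h1, List.filter_cons_of_neg (by simp)]
        exact ih
      · rw [List.filter_cons_of_pos (by simp [offA, h]), List.filterMap_cons_some h1,
          List.filterMap_cons_some h1, List.filter_cons_of_pos (by simpa using h), ih]
    · have h1 : fname (en b true) = none := rfl
      by_cases h : b = a
      · subst h
        rw [List.filter_cons_of_neg (by simp [offA])]
        rw [List.filterMap_cons_none h1]
        exact ih
      · rw [List.filter_cons_of_pos (by simp [offA, h]), List.filterMap_cons_none h1,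
          List.filterMap_cons_none h1, ih]

theorem dl_not_mem (X : PW) (a : ℕ) (h : a ∉ X.ord) : X.dl a = X := by
  ext1
  unfold dl
  simp only
  rw [List.filter_eq_self]
  intro s hs
  rw [offA_iff]
  constructor
  · rintro rfl; exact h ((mem_ord' false).2 hs)
  · rintro rfl; exact h ((mem_ord' true).2 hs)

theorem dl_comm (X : PW) (a b : ℕ) : (X.dl a).dl b = (X.dl b).dl a := by
  ext1
  unfold dl
  simp only [List.filter_filter]
  congr 1
  ext s
  rw [Bool.and_comm]

theorem offA_rnS (π : Equiv.Perm ℕ) (a : ℕ) (s : Sy) : offA (π a) (rnS π s) = offA a s := by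
  rw [Bool.eq_iff_iff]
  rcases s with n | ⟨b, e⟩
  · simp [offA]
  · show offA (π a) (en (π b) e) = true ↔ offA a (en b e) = true
    rw [offA_en, offA_en, π.injective.ne_iff]

theorem dl_rn (π : Equiv.Perm ℕ) (X : PW) (a : ℕ) : (X.rn π).dl (π a) = (X.dl a).rn π := by
  ext1
  unfold dl rn
  simp only
  rw [List.filter_map]
  congr 2
  ext s
  exact offA_rnS π a s

theorem ord_rn (π : Equiv.Perm ℕ) (X : PW) : (X.rn π).ord = X.ord.map π := by
  unfold ord rn
  simp only
  rw [List.filterMap_map, List.map_filterMap]
  congr 1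
  ext1 s
  rcases s with n | ⟨b, _ | _⟩ <;> rfl

theorem rn_one (X : PW) : X.rn 1 = X := by
  ext1
  unfold rn
  simp only
  conv_rhs => rw [← List.map_id X.x]
  congr 1
  ext s
  rcases s with n | ⟨b, e⟩ <;> rfl

theorem rn_mul (π σ : Equiv.Perm ℕ) (X : PW) : X.rn (π * σ) = (X.rn σ).rn π := by
  ext1
  unfold rn
  simp only [List.map_map]
  congr 1
  ext s
  rcases s with n | ⟨b, e⟩ <;> rfl

theorem rn_congr (π σ : Equiv.Perm ℕ) (X : PW) (h : ∀ a ∈ X.ord, π a = σ a) :
    X.rn π = X.rn σ := by
  ext1
  unfold rn
  simp only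
  refine List.map_congr_left fun s hs => ?_
  rcases s with n | ⟨b, e⟩
  · rfl
  · show en (π b) e = en (σ b) e
    rw [h b ((mem_ord' e).2 hs)]

end PW

/-- the system of paired words -/
def W : Sys where
  C := PW
  ord := PW.ord
  dl := PW.dl
  rn := fun π X => X.rn π
  nodup := PW.ord_nodup
  ord_dl := PW.ord_dl
  dl_not_mem := PW.dl_not_mem
  dl_comm := PW.dl_comm
  rn_one := PW.rn_one
  rn_mul := PW.rn_mul
  ord_rn := PW.ord_rn
  dl_rn := PW.dl_rn
  rn_congr := PW.rn_congr

/-- the marker of `μ` which closes the block of the symbol `s` in `x` -/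
def own (μ x : List Sy) (s : Sy) : Option Sy :=
  (x.dropWhile (fun t => decide (t ≠ s))).find? (fun t => decide (t ∈ μ))

/-- `x` is obtained from the frozen word `μ` by inserting arcs into the blocks of the symbols
of `P` -/
def Over (μ : List Sy) (P : Finset Sy) (x : List Sy) : Prop :=
  x.filter (fun t => decide (t ∈ μ)) = μ ∧ (∀ n, mr n ∈ x → mr n ∈ μ) ∧
    ∀ s ∈ x, s ∉ μ → ∃ p ∈ P, own μ x s = some p

/-- number of live boundary cycles -/
noncomputable def nf (θ : Equiv.Perm Sy) (Dd : Finset Sy) (x : List Sy) : ℕ :=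
  ncy (fp θ x) (x.toFinset \ Dd)

end Pool.Agent.TH547.Arc
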